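import Pool.Agent.Lib.Pf720aeK.Past

/-!
# Almost everywhere convergence to zero for products of levelled functions
-/

set_option autoImplicit false
set_option linter.unusedSectionVars false

open MeasureTheory Filter Topology Finset

namespace Pool.Agent.Lib.Pf720aeK

open Pool.Agent.Lib.Pf720ae

variable {X : Type} {G : Type} [Group G] [LinearOrder G] {T : G →* Equiv.Perm X}
  {𝒜 π : MeasurableSpace X} [mX : MeasurableSpace X] {μ : Measure X}
  {κ : Type} [Fintype κ] [DecidableEq κ] {J : Type} [Fintype J] [DecidableEq J]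

/-- Families of sequences `ℕ^κ → G`: `dep j a` says that `φ j` depends on the coordinate `a`; it is
then injective in that coordinate; two different sequences, multiplied by constants on the left,
agree at most once on the lines of some direction. -/
structure Seqs (φ : J → (κ → ℕ) → G) (dep : J → κ → Prop) : Prop where
  inj : ∀ j a, dep j a → ∀ m, Function.Injective fun t => φ j (Function.update m a t)
  ind : ∀ j a, ¬ dep j a → ∀ m t, φ j (Function.update m a t) = φ j m
  sep : ∀ i l, i ≠ l → ∃ a, ∀ (γ γ' : G) m t t',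
    γ * φ i (Function.update m a t) = γ' * φ l (Function.update m a t) →
    γ * φ i (Function.update m a t') = γ' * φ l (Function.update m a t') → t = t'

/-- no coincidence of the levels of the functions in `s` at the time `m` -/
def Good (φ : J → (κ → ℕ) → G) (s : Finset J) (γ : J → G) (m : κ → ℕ) : Prop :=
  ∀ i ∈ s, ∀ l ∈ s, i ≠ l → γ i * φ i m ≠ γ l * φ l m

open Classical in
/-- the part of the product that varies on the line in direction `a` -/
noncomputable def V (T : G →* Equiv.Perm X) (φ : J → (κ → ℕ) → G) (dep : J → κ → Prop)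
    (s : Finset J) (γ : J → G) (H : J → X → ℝ) (a : κ) (m : κ → ℕ) (x : X) : ℝ :=
  if Good φ s γ m then ∏ j ∈ univ.filter (fun j => dep j a), H j (T (φ j m) x) else 0

lemma exists_lt_of_ne [MulRightMono G] {g h : G} (hgh : g ≠ h) (p : G) : ∃ q, q < p := by
  have h1 : g * h⁻¹ ≠ 1 := fun h' => hgh (mul_inv_eq_one.1 h')
  rcases lt_or_gt_of_ne h1 with h2 | h2
  · exact ⟨g * h⁻¹ * p, mul_lt_of_lt_one_left' p h2⟩
  · exact ⟨(g * h⁻¹)⁻¹ * p, mul_lt_of_lt_one_left' p (Right.inv_lt_one_iff.2 h2)⟩

variable [IsProbabilityMeasure μ]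

/-- orthogonality of two different times of one line -/
lemma orth_pair [MulRightMono G] (hP : Past T 𝒜 π μ) {φ : J → (κ → ℕ) → G}
    {dep : J → κ → Prop} (hφ : Seqs φ dep) (s : Finset J) (γ : J → G) (H : J → X → ℝ)
    (hs : ∀ j ∈ s, Lv T 𝒜 μ (γ j) (H j)) (hn : ∀ j ∉ s, Measurable[π] (H j))
    (H1 : ∀ j x, |H j x| ≤ 1) (a : κ) (ha : ∃ j ∈ s, dep j a) (m m' : κ → ℕ)
    (hm : Good φ s γ m) (hm' : Good φ s γ m')
    (hmm : ∀ i ∈ s, ∀ l ∈ s, dep i a → dep l a → γ i * φ i m ≠ γ l * φ l m') :
    ∫ x, V T φ dep s γ H a m x * V T φ dep s γ H a m' x ∂μ = 0 := by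
  classical
  obtain ⟨j₀, hj₀, hj₀a⟩ := ha
  -- the index set
  let I : Type := {j // j ∈ s ∧ dep j a} ⊕ {j // j ∈ s ∧ dep j a}
  let b : I → X → ℝ := Sum.elim (fun j x => H j (T (φ j m) x)) (fun j x => H j (T (φ j m') x))
  let p : I → G := Sum.elim (fun j => γ j * φ j m) (fun j => γ j * φ j m')
  have hb : ∀ i, Lv T 𝒜 μ (p i) (b i) := by
    rintro (j | j)
    · exact (hs j j.2.1).comp hP _
    · exact (hs j j.2.1).comp hP _
  have hpinj : Function.Injective p := by
    rintro (i | i) (l | l) h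
    · congr 1
      apply Subtype.ext
      by_contra hne
      exact hm i i.2.1 l l.2.1 hne h
    · exact absurd h (hmm i i.2.1 l l.2.1 i.2.2 l.2.2)
    · exact absurd h.symm (hmm l l.2.1 i i.2.1 l.2.2 i.2.2)
    · congr 1
      apply Subtype.ext
      by_contra hne
      exact hm' i i.2.1 l l.2.1 hne h
  have : Nonempty I := ⟨Sum.inl ⟨j₀, hj₀, hj₀a⟩⟩
  obtain ⟨i₀, hi₀⟩ := Finite.exists_max p
  let Y : X → ℝ := fun x => (∏ j ∈ univ.filter (fun j => dep j a ∧ j ∉ s), H j (T (φ j m) x)) *
    ∏ j ∈ univ.filter (fun j => dep j a ∧ j ∉ s), H j (T (φ j m') x)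
  have hY : Measurable[π] Y := by
    refine Measurable.mul ?_ ?_
    · refine Finset.measurable_fun_prod _ fun j hj => ?_
      exact hP.meas_pi (hn j (mem_filter.1 hj).2.2)
    · refine Finset.measurable_fun_prod _ fun j hj => ?_
      exact hP.meas_pi (hn j (mem_filter.1 hj).2.2)
  have hY1 : ∀ x, |Y x| ≤ 1 := by
    intro x
    rw [abs_mul, Finset.abs_prod, Finset.abs_prod]
    exact mul_le_one₀ (Finset.prod_le_one (fun i _ => abs_nonneg _) fun i _ => H1 _ _)
      (Finset.prod_nonneg fun i _ => abs_nonneg _)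
      (Finset.prod_le_one (fun i _ => abs_nonneg _) fun i _ => H1 _ _)
  have hG : ∃ q, q < p i₀ := by
    have h1 := hφ.inj j₀ a hj₀a m
    refine exists_lt_of_ne (g := φ j₀ (Function.update m a 0)) (h := φ j₀ (Function.update m a 1))
      (fun h => ?_) _
    exact absurd (h1 h) (by norm_num)
  have key := integral_eq_zero hP b p hb Y hY hY1 i₀
    (fun i hi => lt_of_le_of_ne (hi₀ i) fun h => hi (hpinj h)) hG
  rw [← key]
  refine integral_congr_ae (Eventually.of_forall fun x => ?_)
  simp only [V, if_pos hm, if_pos hm', I, Fintype.prod_sum_type, b, Sum.elim_inl, Sum.elim_inr, Y]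
  have hsplit : ∀ F : J → ℝ, ∏ j ∈ univ.filter (fun j => dep j a), F j =
      (∏ j : {j // j ∈ s ∧ dep j a}, F j) *
        ∏ j ∈ univ.filter (fun j => dep j a ∧ j ∉ s), F j := by
    intro F
    rw [← Finset.prod_filter_mul_prod_filter_not (univ.filter (fun j => dep j a)) (fun j => j ∈ s)]
    congr 1
    · rw [Finset.filter_filter]
      refine Finset.prod_subtype _ (fun j => ?_) F
      simp [and_comm]
    · rw [Finset.filter_filter]
  rw [hsplit, hsplit]
  ring

end Pool.Agent.Lib.Pf720aeK
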