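import Pool.Agent.Lib.Pf720aeK.Core

/-!
# Second moments and almost everywhere convergence to zero
-/

set_option autoImplicit false
set_option linter.unusedSectionVars false

open MeasureTheory Filter Topology Finset

namespace Pool.Agent.Lib.Pf720aeK

open Pool.Agent.Lib.Pf720ae

variable {X : Type} {G : Type} [Group G] [LinearOrder G] {T : G →* Equiv.Perm X}
  {𝒜 π : MeasurableSpace X} [mX : MeasurableSpace X] {μ : Measure X}
  {κ : Type} [Fintype κ] [DecidableEq κ] {J : Type} [Fintype J] [DecidableEq J]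

lemma abs_V_le (T : G →* Equiv.Perm X) (φ : J → (κ → ℕ) → G) (dep : J → κ → Prop)
    (s : Finset J) (γ : J → G) {H : J → X → ℝ} (H1 : ∀ j x, |H j x| ≤ 1) (a : κ) (m : κ → ℕ)
    (x : X) : |V T φ dep s γ H a m x| ≤ 1 := by
  unfold V
  split_ifs
  · rw [Finset.abs_prod]
    exact Finset.prod_le_one (fun i _ => abs_nonneg _) fun i _ => H1 _ _
  · simp

lemma measurable_V (hP : Past T 𝒜 π μ) (φ : J → (κ → ℕ) → G) (dep : J → κ → Prop)
    (s : Finset J) (γ : J → G) {H : J → X → ℝ} (Hm : ∀ j, Measurable (H j)) (a : κ) (m : κ → ℕ) :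
    Measurable (V T φ dep s γ H a m) := by
  unfold V
  split_ifs
  · exact Finset.measurable_fun_prod _ fun j _ => (Hm j).comp (hP.mp _).measurable
  · exact measurable_const

variable [IsProbabilityMeasure μ]

lemma integrable_of_abs_le {F : X → ℝ} (hF : Measurable F) {C : ℝ} (h : ∀ x, |F x| ≤ C) :
    Integrable F μ :=
  Integrable.of_bound hF.aestronglyMeasurable C (Eventually.of_forall fun x => by
    simpa using h x)

theorem line_bound [MulRightMono G] (hP : Past T 𝒜 π μ) {φ : J → (κ → ℕ) → G}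
    {dep : J → κ → Prop} (hφ : Seqs φ dep) (s : Finset J) (γ : J → G) (H : J → X → ℝ)
    (Hm : ∀ j, Measurable (H j))
    (hs : ∀ j ∈ s, Lv T 𝒜 μ (γ j) (H j)) (hn : ∀ j ∉ s, Measurable[π] (H j))
    (H1 : ∀ j x, |H j x| ≤ 1) (a : κ) (ha : ∃ j ∈ s, dep j a) (m : κ → ℕ) (N : ℕ) :
    ∫ x, (∑ t ∈ range N, V T φ dep s γ H a (Function.update m a t) x) ^ 2 ∂μ ≤
      N * (s.card : ℝ) ^ 2 := by
  classical
  set v : ℕ → X → ℝ := fun t => V T φ dep s γ H a (Function.update m a t) with hv
  have hvm : ∀ t, Measurable (v t) := fun t => measurable_V hP φ dep s γ Hm a _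
  have hv1 : ∀ t x, |v t x| ≤ 1 := fun t x => abs_V_le T φ dep s γ H1 a _ x
  have hvv : ∀ t t', Integrable (fun x => v t x * v t' x) μ := fun t t' =>
    integrable_of_abs_le ((hvm t).mul (hvm t')) (C := 1) fun x => by
      rw [abs_mul]
      exact mul_le_one₀ (hv1 _ _) (abs_nonneg _) (hv1 _ _)
  have h1 : ∫ x, (∑ t ∈ range N, v t x) ^ 2 ∂μ =
      ∑ t ∈ range N, ∑ t' ∈ range N, ∫ x, v t x * v t' x ∂μ := by
    simp_rw [sq, Finset.sum_mul_sum]
    rw [integral_finsetSum _ fun t _ => integrable_finsetSum _ fun t' _ => hvv t t']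
    refine Finset.sum_congr rfl fun t _ => ?_
    rw [integral_finsetSum _ fun t' _ => hvv t t']
  rw [h1]
  have h2 : ∀ t ∈ range N, ∑ t' ∈ range N, ∫ x, v t x * v t' x ∂μ ≤ (s.card : ℝ) ^ 2 := by
    intro t _
    set E : J × J → Finset ℕ := fun p => (range N).filter fun t' =>
      dep p.2 a ∧ γ p.1 * φ p.1 (Function.update m a t) = γ p.2 * φ p.2 (Function.update m a t')
      with hE
    have hE1 : ∀ p, (E p).card ≤ 1 := by
      intro p
      rw [Finset.card_le_one]
      intro t₁ h₁ t₂ h₂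
      simp only [hE, mem_filter] at h₁ h₂
      have h3 := h₁.2.2.symm.trans h₂.2.2
      exact hφ.inj p.2 a h₁.2.1 m (mul_left_cancel h3)
    set B := (s ×ˢ s).biUnion E with hB
    have hBc : (B.card : ℝ) ≤ (s.card : ℝ) ^ 2 := by
      have : B.card ≤ s.card ^ 2 := by
        refine Finset.card_biUnion_le.trans ?_
        refine (Finset.sum_le_card_nsmul _ _ 1 fun p _ => hE1 p).trans ?_
        simp [sq]
      exact_mod_cast this
    have h3 : ∀ t' ∈ range N, ∫ x, v t x * v t' x ∂μ ≤ if t' ∈ B then 1 else 0 := by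
      intro t' ht'
      by_cases htB : t' ∈ B
      · rw [if_pos htB]
        calc ∫ x, v t x * v t' x ∂μ ≤ ∫ _x, (1 : ℝ) ∂μ := by
              refine integral_mono (hvv t t') (integrable_const _) fun x => ?_
              refine (le_abs_self _).trans ?_
              rw [abs_mul]
              exact mul_le_one₀ (hv1 _ _) (abs_nonneg _) (hv1 _ _)
          _ = 1 := by simp
      · rw [if_neg htB]
        refine le_of_eq ?_
        by_cases hg : Good φ s γ (Function.update m a t)
        · by_cases hg' : Good φ s γ (Function.update m a t')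
          · refine orth_pair hP hφ s γ H hs hn H1 a ha _ _ hg hg' ?_
            intro i hi l hl _ hla heq
            apply htB
            rw [hB, mem_biUnion]
            refine ⟨(i, l), mem_product.2 ⟨hi, hl⟩, ?_⟩
            simp only [hE, mem_filter]
            exact ⟨ht', hla, heq⟩
          · have : ∀ x, v t' x = 0 := fun x => by simp only [hv, V, if_neg hg']
            simp [this]
        · have : ∀ x, v t x = 0 := fun x => by simp only [hv, V, if_neg hg]
          simp [this]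
    calc ∑ t' ∈ range N, ∫ x, v t x * v t' x ∂μ
        ≤ ∑ t' ∈ range N, (if t' ∈ B then (1 : ℝ) else 0) := Finset.sum_le_sum h3
      _ = (((range N).filter fun t' => t' ∈ B).card : ℝ) := by rw [Finset.sum_boole]
      _ ≤ (B.card : ℝ) := by
          have : ((range N).filter fun t' => t' ∈ B) ⊆ B := fun t' ht' => (mem_filter.1 ht').2
          exact_mod_cast Finset.card_le_card this
      _ ≤ (s.card : ℝ) ^ 2 := hBc
  refine (Finset.sum_le_sum h2).trans ?_
  simp

open Classical in
/-- the product, cut off at the bad times -/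
noncomputable def uu (T : G →* Equiv.Perm X) (φ : J → (κ → ℕ) → G) (s : Finset J) (γ : J → G)
    (H : J → X → ℝ) (m : κ → ℕ) (x : X) : ℝ :=
  if Good φ s γ m then ∏ j, H j (T (φ j m) x) else 0

lemma abs_uu_le (T : G →* Equiv.Perm X) (φ : J → (κ → ℕ) → G)
    (s : Finset J) (γ : J → G) {H : J → X → ℝ} (H1 : ∀ j x, |H j x| ≤ 1) (m : κ → ℕ)
    (x : X) : |uu T φ s γ H m x| ≤ 1 := by
  unfold uu
  split_ifs
  · rw [Finset.abs_prod]
    exact Finset.prod_le_one (fun i _ => abs_nonneg _) fun i _ => H1 _ _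
  · simp

lemma measurable_uu (hP : Past T 𝒜 π μ) (φ : J → (κ → ℕ) → G)
    (s : Finset J) (γ : J → G) {H : J → X → ℝ} (Hm : ∀ j, Measurable (H j)) (m : κ → ℕ) :
    Measurable (uu T φ s γ H m) := by
  unfold uu
  split_ifs
  · exact Finset.measurable_fun_prod _ fun j _ => (Hm j).comp (hP.mp _).measurable
  · exact measurable_const

lemma uu_line {φ : J → (κ → ℕ) → G}
    {dep : J → κ → Prop} (hφ : Seqs φ dep) (s : Finset J) (γ : J → G) {H : J → X → ℝ}
    (H1 : ∀ j x, |H j x| ≤ 1) (a : κ) (m : κ → ℕ) (N : ℕ) (x : X) :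
    (∑ t ∈ range N, uu T φ s γ H (Function.update m a t) x) ^ 2 ≤
      (∑ t ∈ range N, V T φ dep s γ H a (Function.update m a t) x) ^ 2 := by
  classical
  set C : ℝ := ∏ j ∈ univ.filter (fun j => ¬ dep j a), H j (T (φ j m) x) with hC
  have hC1 : |C| ≤ 1 := by
    rw [hC, Finset.abs_prod]
    exact Finset.prod_le_one (fun i _ => abs_nonneg _) fun i _ => H1 _ _
  have h1 : ∀ t, uu T φ s γ H (Function.update m a t) x =
      V T φ dep s γ H a (Function.update m a t) x * C := by
    intro t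
    unfold uu V
    split_ifs with hg
    · rw [← Finset.prod_filter_mul_prod_filter_not univ (fun j => dep j a)]
      congr 1
      refine Finset.prod_congr rfl fun j hj => ?_
      rw [hφ.ind j a (mem_filter.1 hj).2]
    · simp
  simp_rw [h1]
  rw [← Finset.sum_mul, mul_pow]
  have h2 : C ^ 2 ≤ 1 := by
    rw [← sq_abs]
    exact pow_le_one₀ (abs_nonneg _) hC1
  exact mul_le_of_le_one_right (sq_nonneg _) h2

lemma avg_sq_le' {M : κ → ℕ} (hM : ∀ l, 0 < M l) (g : (κ → ℕ) → ℝ) :
    (avg M g) ^ 2 ≤ avg M fun m => (g m) ^ 2 := by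
  unfold avg
  have hP := prod_cast_pos hM
  set P := ∏ l, (M l : ℝ) with hPd
  have h1 : (∑ m ∈ box M, g m) ^ 2 ≤ (box M).card * ∑ m ∈ box M, (g m) ^ 2 :=
    sq_sum_le_card_mul_sum_sq
  have h2 : ((box M).card : ℝ) = P := by
    rw [card_box]
    push_cast
    rfl
  rw [h2] at h1
  calc (P⁻¹ * ∑ m ∈ box M, g m) ^ 2 = P⁻¹ ^ 2 * (∑ m ∈ box M, g m) ^ 2 := by ring
    _ ≤ P⁻¹ ^ 2 * (P * ∑ m ∈ box M, (g m) ^ 2) := by gcongr
    _ = P⁻¹ * ∑ m ∈ box M, (g m) ^ 2 := by field_simp

theorem box_bound [MulRightMono G] (hP : Past T 𝒜 π μ) {φ : J → (κ → ℕ) → G}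
    {dep : J → κ → Prop} (hφ : Seqs φ dep) (s : Finset J) (γ : J → G) (H : J → X → ℝ)
    (Hm : ∀ j, Measurable (H j))
    (hs : ∀ j ∈ s, Lv T 𝒜 μ (γ j) (H j)) (hn : ∀ j ∉ s, Measurable[π] (H j))
    (H1 : ∀ j x, |H j x| ≤ 1) (a : κ) (ha : ∃ j ∈ s, dep j a) (M : κ → ℕ) (hM : ∀ l, 0 < M l) :
    ∫ x, (avg M fun m => uu T φ s γ H m x) ^ 2 ∂μ ≤ (s.card : ℝ) ^ 2 / M a := by
  have hMa : (0 : ℝ) < M a := by exact_mod_cast hM a
  have h1 : ∀ x, (avg M fun m => uu T φ s γ H m x) =
      avg M fun m => (M a : ℝ)⁻¹ * ∑ t ∈ range (M a), uu T φ s γ H (Function.update m a t) x := by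
    intro x
    rw [avg_smul]
    unfold avg
    rw [sum_box_update M a (fun m => uu T φ s γ H m x), nsmul_eq_mul]
    field_simp
  have h2 : ∀ x, (avg M fun m => uu T φ s γ H m x) ^ 2 ≤
      avg M fun m => ((M a : ℝ)⁻¹) ^ 2 *
        (∑ t ∈ range (M a), V T φ dep s γ H a (Function.update m a t) x) ^ 2 := by
    intro x
    rw [h1]
    refine (avg_sq_le' hM _).trans (avg_mono M fun m => ?_)
    rw [mul_pow]
    exact mul_le_mul_of_nonneg_left (uu_line hφ s γ H1 a m (M a) x) (sq_nonneg _)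
  have hVm : ∀ m, Measurable fun x =>
      (∑ t ∈ range (M a), V T φ dep s γ H a (Function.update m a t) x) ^ 2 := fun m =>
    (Finset.measurable_fun_sum _ fun t _ => measurable_V hP φ dep s γ Hm a _).pow_const 2
  have hVb : ∀ m x, |(∑ t ∈ range (M a), V T φ dep s γ H a (Function.update m a t) x) ^ 2| ≤
      (M a : ℝ) ^ 2 := by
    intro m x
    rw [abs_pow]
    refine pow_le_pow_left₀ (abs_nonneg _) ?_ 2
    refine (Finset.abs_sum_le_sum_abs _ _).trans ?_
    refine (Finset.sum_le_sum fun t _ => abs_V_le T φ dep s γ H1 a _ x).trans ?_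
    simp
  have hint : ∀ m, Integrable (fun x => ((M a : ℝ)⁻¹) ^ 2 *
      (∑ t ∈ range (M a), V T φ dep s γ H a (Function.update m a t) x) ^ 2) μ := fun m =>
    (integrable_of_abs_le (hVm m) (hVb m)).const_mul _
  calc ∫ x, (avg M fun m => uu T φ s γ H m x) ^ 2 ∂μ
      ≤ ∫ x, (avg M fun m => ((M a : ℝ)⁻¹) ^ 2 *
        (∑ t ∈ range (M a), V T φ dep s γ H a (Function.update m a t) x) ^ 2) ∂μ := by
        refine integral_mono ?_ ?_ h2
        · refine integrable_of_abs_le (C := 1) ?_ fun x => ?_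
          · unfold avg
            exact ((Finset.measurable_fun_sum _ fun m _ =>
              measurable_uu hP φ s γ Hm m).const_mul _).pow_const 2
          · rw [abs_pow]
            refine pow_le_one₀ (abs_nonneg _) ?_
            exact abs_avg_le_of_le zero_le_one fun m => abs_uu_le T φ s γ H1 m x
        · unfold avg
          exact (integrable_finsetSum _ fun m _ => hint m).const_mul _
    _ = avg M fun m => ((M a : ℝ)⁻¹) ^ 2 *
        ∫ x, (∑ t ∈ range (M a), V T φ dep s γ H a (Function.update m a t) x) ^ 2 ∂μ := by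
        unfold avg
        rw [integral_const_mul, integral_finsetSum _ fun m _ => hint m]
        simp_rw [integral_const_mul]
    _ ≤ avg M fun _ => ((M a : ℝ)⁻¹) ^ 2 * (M a * (s.card : ℝ) ^ 2) := by
        refine avg_mono M fun m => ?_
        exact mul_le_mul_of_nonneg_left
          (line_bound hP hφ s γ H Hm hs hn H1 a ha m (M a)) (sq_nonneg _)
    _ = (s.card : ℝ) ^ 2 / M a := by
        rw [avg_const hM]
        field_simp

end Pool.Agent.Lib.Pf720aeK
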