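import Pool.Agent.Lib.Pf720aeK.Real
import Pool.Agent.Lib.Pf720ae.Lift

/-!
# Complex functions and boxes starting at one
-/

set_option autoImplicit false
set_option linter.unusedSectionVars false
set_option linter.overlappingInstances false

open MeasureTheory Filter Topology Finset

namespace Pool.Agent.Lib.Pf720aeK

open Pool.Agent.Lib.Pf720ae Pool.Agent.Lib.Pf720ae.Alg

section shift

variable {κ : Type} [Fintype κ] [DecidableEq κ]

lemma tendsto_shift_err' (R : ℝ) (h : κ → ℕ) :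
    Tendsto (fun M : κ → ℕ => ∑ l, 2 * R * h l / M l) atTop (𝓝 0) := by
  have h1 : ∀ l : κ, Tendsto (fun M : κ → ℕ => 2 * R * h l / M l) atTop (𝓝 0) := by
    intro l
    have h2 : Tendsto (fun M : κ → ℕ => M l) atTop atTop := by
      rw [tendsto_atTop]
      intro b
      filter_upwards [eventually_ge_atTop (fun _ => b)] with M hM using hM l
    exact (tendsto_const_div_atTop_nhds_zero_nat (2 * R * h l)).comp h2
  have h3 := tendsto_finsetSum (Finset.univ : Finset κ) fun l _ => h1 l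
  rwa [Finset.sum_const_zero] at h3

lemma shift_err {Φ : (κ → ℕ) → ℝ} {R : ℝ} (hR : ∀ m, |Φ m| ≤ R) (h : κ → ℕ) :
    Tendsto (fun M : κ → ℕ => avg M (fun m => Φ (m + h)) - avg M Φ) atTop (𝓝 0) := by
  refine squeeze_zero_norm' ?_ (tendsto_shift_err' R h)
  filter_upwards [eventually_pos] with M hM
  exact avg_shift M h Φ hR hM

lemma Cvg_shift {Φ : (κ → ℕ) → ℝ} {R : ℝ} (hR : ∀ m, |Φ m| ≤ R) (h : κ → ℕ) :
    Cvg (fun m => Φ (m + h)) ↔ Cvg Φ := by
  have h1 := shift_err hR h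
  constructor
  · rintro ⟨L, hL⟩
    refine ⟨L, ?_⟩
    have h2 := hL.sub h1
    simpa using h2
  · rintro ⟨L, hL⟩
    refine ⟨L, ?_⟩
    have h2 := h1.add hL
    simpa using h2

end shift

variable {X : Type} {G : Type} [Group G] [LinearOrder G] [MulLeftMono G] [MulRightMono G]
  {T : G →* Equiv.Perm X}
  {𝒜 π : MeasurableSpace X} [mX : MeasurableSpace X] {μ : Measure X} [IsProbabilityMeasure μ]

/-- complex averages over the boxes `[M_1] × ⋯ × [M_k]` -/
def CvgC {k : ℕ} (Φ : (Fin k → ℕ) → ℂ) : Prop :=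
  ∃ L : ℂ, Tendsto (fun M : Fin k → ℕ => (∏ l, (M l : ℂ))⁻¹ *
    ∑ m ∈ Fintype.piFinset (fun l => Finset.Icc 1 (M l)), Φ m) atTop (𝓝 L)

lemma abs_prod_le_one {n : ℕ} {F : Fin n → X → ℝ} (hF : ∀ j x, |F j x| ≤ 1) (y : Fin n → X) :
    |∏ j, F j (y j)| ≤ 1 := by
  rw [Finset.abs_prod]
  exact Finset.prod_le_one (fun i _ => abs_nonneg _) fun i _ => hF _ _

theorem complexK (hP : Past T 𝒜 π μ) (hI : Inn T 𝒜 π μ) {n k : ℕ} (g : Fin n → Fin k → G)
    (c : Fin n → G)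
    (hcase : π = ⊥ ∨ ((∀ j a, g j a ≠ 1) ∧ ∀ f : Fin n → X → ℂ, (∀ j, Measurable[π] (f j)) →
      (∀ j x, ‖f j x‖ ≤ 1) → ∀ᵐ x ∂μ, CvgC fun m => ∏ j, f j (T (c j * wd (g j) m) x)))
    (f : Fin n → X → ℂ) (hf : ∀ j, MemLp (f j) ⊤ μ) :
    ∀ᵐ x ∂μ, CvgC fun m => ∏ j, f j (T (c j * wd (g j) m) x) := by
  have hcase' : π = ⊥ ∨ ((∀ j a, g j a ≠ 1) ∧ ∀ F : Fin n → X → ℝ,
      (∀ j, Measurable[π] (F j)) → (∀ j x, |F j x| ≤ 1) →
      ∀ᵐ x ∂μ, Cvg fun m => ∏ j, F j (T (c j * wd (g j) m) x)) := by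
    rcases hcase with h | ⟨h1, h2⟩
    · exact Or.inl h
    · refine Or.inr ⟨h1, fun F hF hF1 => ?_⟩
      have h3 := h2 (fun j x => (F j x : ℂ)) (fun j => Complex.measurable_ofReal.comp (hF j))
        (fun j x => by simpa using hF1 j x)
      filter_upwards [h3] with x hx
      obtain ⟨L, hL⟩ := hx
      refine (Cvg_shift (R := 1) (fun m => abs_prod_le_one hF1 fun j => T (c j * wd (g j) m) x)
        1).1 ⟨L.re, ?_⟩
      have h4 := (Complex.continuous_re.tendsto L).comp hL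
      refine h4.congr fun M => ?_
      simp only [Function.comp_apply]
      rw [sum_Icc_eq]
      have h5 : ((∏ l, (M l : ℂ))⁻¹ * ∑ m ∈ Fintype.piFinset fun l => Finset.range (M l),
          ∏ j, (F j (T (c j * wd (g j) (m + 1)) x) : ℂ)) =
          ((avg M fun m => ∏ j, F j (T (c j * wd (g j) (m + 1)) x) : ℝ) : ℂ) := by
        unfold avg Pf720ae.box
        push_cast
        rfl
      rw [h5, Complex.ofReal_re]
  have hreal : ∀ F : Fin n → X → ℝ, (∀ j, Measurable (F j)) → (∀ j x, |F j x| ≤ 1) →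
      ∀ᵐ x ∂μ, Cvg fun m => ∏ j, F j (T (c j * wd (g j) (m + 1)) x) := by
    intro F hF hF1
    filter_upwards [realK hP hI g c hcase' F hF hF1] with x hx
    exact (Cvg_shift (R := 1) (fun m => abs_prod_le_one hF1 fun j => T (c j * wd (g j) m) x)
      1).2 hx
  have h6 := lift_complex (fun j (m : Fin k → ℕ) x => T (c j * wd (g j) (m + 1)) x)
    (fun j m => hP.mp _) hreal f hf
  filter_upwards [h6] with x hx
  obtain ⟨L, hL⟩ := hx
  refine ⟨L, hL.congr fun M => ?_⟩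
  rw [sum_Icc_eq]

end Pool.Agent.Lib.Pf720aeK
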