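import Pool.Agent.Lib.Pf720aeK.Past

/-!
# Levelled functions span the complement of the innovation-free functions
-/

set_option autoImplicit false
set_option linter.unusedSectionVars false
set_option linter.overlappingInstances false

open MeasureTheory Filter Topology Finset

namespace Pool.Agent.Lib.Pf720aeK

section cond

variable {X : Type} {m m' : MeasurableSpace X} [mX : MeasurableSpace X] {μ : Measure X}
  [IsProbabilityMeasure μ]

/-- pairing with a bounded `m`-measurable function -/
lemma integral_mul_condExp (hm : m ≤ mX) {ψ e : X → ℝ} (hψ : Integrable ψ μ)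
    (he : StronglyMeasurable[m] e) {C : ℝ} (hC : ∀ x, |e x| ≤ C) :
    ∫ x, ψ x * e x ∂μ = ∫ x, (μ[ψ|m]) x * e x ∂μ := by
  have h1 := condExp_stronglyMeasurable_mul_of_bound hm he hψ C
    (Eventually.of_forall fun x => by simpa using hC x)
  calc ∫ x, ψ x * e x ∂μ = ∫ x, (e * ψ) x ∂μ := by
        refine integral_congr_ae (Eventually.of_forall fun x => ?_)
        simp [mul_comm]
    _ = ∫ x, (μ[e * ψ|m]) x ∂μ := (integral_condExp hm).symm
    _ = ∫ x, (e * μ[ψ|m]) x ∂μ := integral_congr_ae h1
    _ = _ := by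
        refine integral_congr_ae (Eventually.of_forall fun x => ?_)
        simp [mul_comm]

/-- pairing a bounded function with an integrable `m`-measurable function -/
lemma integral_mul_condExp' (hm : m ≤ mX) {w b : X → ℝ} (hw : Integrable w μ)
    (hwm : StronglyMeasurable[m] w) (hb : Measurable b) {C : ℝ} (hC : ∀ x, |b x| ≤ C) :
    ∫ x, w x * b x ∂μ = ∫ x, w x * (μ[b|m]) x ∂μ := by
  have hbi : Integrable b μ := Integrable.of_bound hb.aestronglyMeasurable C
    (Eventually.of_forall fun x => by simpa using hC x)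
  have hwb : Integrable (w * b) μ := hw.mul_bdd (c := C) hb.aestronglyMeasurable
    (Eventually.of_forall fun x => by simpa using hC x)
  have h1 := condExp_mul_of_stronglyMeasurable_left hwm hwb hbi
  calc ∫ x, w x * b x ∂μ = ∫ x, (μ[w * b|m]) x ∂μ := (integral_condExp hm).symm
    _ = ∫ x, (w * μ[b|m]) x ∂μ := integral_congr_ae h1
    _ = _ := rfl

/-- a version of the conditional expectation of an indicator with values in `[0,1]` -/
lemma exists_clip {s : Set X} (hs : MeasurableSet s) (hm : m ≤ mX) :
    ∃ e : X → ℝ, StronglyMeasurable[m] e ∧ (∀ x, 0 ≤ e x ∧ e x ≤ 1) ∧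
      e =ᵐ[μ] μ[s.indicator (fun _ => (1 : ℝ))|m] := by
  set b : X → ℝ := s.indicator fun _ => 1 with hb
  have hbi : Integrable b μ := (integrable_const (1 : ℝ)).indicator hs
  have h0 : 0 ≤ᵐ[μ] μ[b|m] := condExp_nonneg (Eventually.of_forall fun x =>
    Set.indicator_nonneg (fun _ _ => zero_le_one) x)
  have h1 : μ[b|m] ≤ᵐ[μ] fun _ => 1 := by
    have h2 : μ[b|m] ≤ᵐ[μ] μ[fun _ => (1 : ℝ)|m] := condExp_mono hbi (integrable_const _)
      (Eventually.of_forall fun x => Set.indicator_le_self' (fun _ _ => zero_le_one) x)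
    rwa [condExp_const hm] at h2
  refine ⟨fun x => max 0 (min 1 ((μ[b|m]) x)), ?_, fun x => ⟨le_max_left _ _, ?_⟩, ?_⟩
  · have h3 : StronglyMeasurable[m] (μ[b|m]) := stronglyMeasurable_condExp
    have h4 : Continuous fun r : ℝ => max 0 (min 1 r) := by fun_prop
    exact h4.comp_stronglyMeasurable h3
  · exact max_le zero_le_one (min_le_left _ _)
  · filter_upwards [h0, h1] with x hx0 hx1
    have hx0' : 0 ≤ (μ[b|m]) x := hx0
    rw [min_eq_right hx1, max_eq_right hx0']

lemma abs_indicator_le (s : Set X) (x : X) : |s.indicator (fun _ => (1 : ℝ)) x| ≤ 1 := by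
  by_cases h : x ∈ s <;> simp [h]

lemma setIntegral_eq_mul {s : Set X} (hs : MeasurableSet s) (F : X → ℝ) :
    ∫ x in s, F x ∂μ = ∫ x, F x * s.indicator (fun _ => (1 : ℝ)) x ∂μ := by
  rw [← integral_indicator hs]
  refine integral_congr_ae (Eventually.of_forall fun x => ?_)
  by_cases h : x ∈ s <;> simp [h]

/-- a function orthogonal to all bounded `m'`-measurable functions that are orthogonal to the
bounded `m`-measurable ones has equal conditional expectations -/
theorem condExp_eq_of_orth (h01 : m ≤ m') (h1X : m' ≤ mX) {φ : X → ℝ} (hφi : Integrable φ μ)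
    (h : ∀ h : X → ℝ, Measurable[m'] h → (∀ x, |h x| ≤ 1) →
      (∀ Y : X → ℝ, Measurable[m] Y → (∀ x, |Y x| ≤ 1) → ∫ x, h x * Y x ∂μ = 0) →
      ∫ x, φ x * h x ∂μ = 0) : μ[φ|m'] =ᵐ[μ] μ[φ|m] := by
  have hm0 : m ≤ mX := h01.trans h1X
  symm
  refine ae_eq_condExp_of_forall_setIntegral_eq h1X hφi ?_ ?_ ?_
  · intro s _ _
    exact integrable_condExp.integrableOn
  · intro s hs _
    have hsX : MeasurableSet s := h1X s hs
    set b : X → ℝ := s.indicator fun _ => 1 with hb
    have hbm : Measurable[m'] b := measurable_const.indicator hs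
    have hbX : Measurable b := measurable_const.indicator hsX
    have hb1 : ∀ x, |b x| ≤ 1 := fun x => abs_indicator_le s x
    obtain ⟨e, hem, he01, hee⟩ := exists_clip (μ := μ) hsX hm0
    have he1 : ∀ x, |e x| ≤ 1 := fun x => by
      rw [abs_of_nonneg (he01 x).1]
      exact (he01 x).2
    have heX : Measurable e := (hem.mono hm0).measurable
    have hbi : Integrable b μ := (integrable_const (1 : ℝ)).indicator hsX
    -- the innovation
    have h3 := h (fun x => b x - e x) (hbm.sub (hem.measurable.mono h01 le_rfl)) (fun x => by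
        have h3 : b x = 0 ∨ b x = 1 := by
          by_cases h : x ∈ s <;> simp [hb, h]
        rw [abs_le]
        rcases h3 with h3 | h3 <;> rw [h3] <;> constructor <;>
          linarith [(he01 x).1, (he01 x).2]) (fun Y hY hY1 => by
        have hYX : Measurable Y := hY.mono hm0 le_rfl
        have hY0 : StronglyMeasurable[m] Y := hY.stronglyMeasurable
        have hint : ∀ F : X → ℝ, Measurable F → (∀ x, |F x| ≤ 1) →
            Integrable (fun x => F x * Y x) μ := fun F hF hF1 =>
          Integrable.of_bound (hF.mul hYX).aestronglyMeasurable 1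
            (Eventually.of_forall fun x => by
              rw [Real.norm_eq_abs, abs_mul]
              exact mul_le_one₀ (hF1 x) (abs_nonneg _) (hY1 x))
        simp_rw [sub_mul]
        rw [integral_sub (hint b hbX hb1) (hint e heX he1)]
        rw [integral_mul_condExp hm0 hbi hY0 hY1, sub_eq_zero]
        refine integral_congr_ae ?_
        filter_upwards [hee] with x hx
        rw [hx])
    have hφb : Integrable (fun x => φ x * b x) μ := hφi.mul_bdd (c := 1)
      hbX.aestronglyMeasurable (Eventually.of_forall fun x => by simpa using hb1 x)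
    have hφe : Integrable (fun x => φ x * e x) μ := hφi.mul_bdd (c := 1)
      heX.aestronglyMeasurable (Eventually.of_forall fun x => by simpa using he1 x)
    simp_rw [mul_sub] at h3
    rw [integral_sub hφb hφe, sub_eq_zero] at h3
    rw [setIntegral_eq_mul hsX, setIntegral_eq_mul hsX, h3, integral_mul_condExp hm0 hφi hem he1,
      integral_mul_condExp' hm0 integrable_condExp stronglyMeasurable_condExp hbX hb1]
    refine integral_congr_ae ?_
    filter_upwards [hee] with x hx
    rw [hx]
  · exact (stronglyMeasurable_condExp.mono h01).aestronglyMeasurable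

/-- an `m`-measurable function orthogonal to all bounded `m`-measurable functions vanishes -/
theorem eq_zero_of_orth_meas (hm : m ≤ mX) {φ : X → ℝ} (hφi : Integrable φ μ)
    (key : AEStronglyMeasurable[m] φ μ)
    (h2 : ∀ h : X → ℝ, Measurable[m] h → (∀ x, |h x| ≤ 1) → ∫ x, φ x * h x ∂μ = 0) :
    φ =ᵐ[μ] 0 := by
  have h3 : μ[φ|m] =ᵐ[μ] φ := condExp_of_aestronglyMeasurable' hm key hφi
  have h4 : (0 : X → ℝ) =ᵐ[μ] μ[φ|m] := by
    refine ae_eq_condExp_of_forall_setIntegral_eq hm hφi ?_ ?_ ?_
    · intro s _ _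
      exact (integrable_zero _ _ _).integrableOn
    · intro s hs _
      have h5 := h2 (s.indicator fun _ => 1) (measurable_const.indicator hs)
        fun x => abs_indicator_le s x
      rw [setIntegral_eq_mul (hm s hs) φ, h5]
      simp
    · exact aestronglyMeasurable_const
  exact (h4.trans h3).symm

end cond

variable {X : Type} {G : Type} [Group G] [LinearOrder G] {T : G →* Equiv.Perm X}
  {𝒜 π : MeasurableSpace X} [mX : MeasurableSpace X] {μ : Measure X} [IsProbabilityMeasure μ]

/-- Kolmogorov condition relative to `π`: every square integrable function without innovations is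
`π`-measurable. -/
def Inn (T : G →* Equiv.Perm X) (𝒜 π : MeasurableSpace X) [mX : MeasurableSpace X]
    (μ : Measure X) : Prop :=
  ∀ f : X → ℝ, MemLp f 2 μ →
    (∀ g, μ[f|𝒜.comap (T g)] =ᵐ[μ] μ[f|⨆ h : {h // h < g}, 𝒜.comap (T h)]) →
    AEStronglyMeasurable[π] f μ

theorem eq_zero_of_orth (hP : Past T 𝒜 π μ) (hI : Inn T 𝒜 π μ) {φ : X → ℝ}
    (hφ : MemLp φ 2 μ)
    (h1 : ∀ g h, Lv T 𝒜 μ g h → ∫ x, φ x * h x ∂μ = 0)
    (h2 : ∀ h : X → ℝ, Measurable[π] h → (∀ x, |h x| ≤ 1) → ∫ x, φ x * h x ∂μ = 0) :
    φ =ᵐ[μ] 0 := by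
  have hφi : Integrable φ μ := hφ.integrable one_le_two
  refine eq_zero_of_orth_meas hP.pi_le' hφi (hI φ hφ fun g => ?_) h2
  refine condExp_eq_of_orth (iSup_le fun h => hP.mono _ _ h.2.le) (hP.pst_le g) hφi
    fun h hm hb ho => h1 g h ⟨hm, hb, fun q hq Y hY hY1 => ho Y ?_ hY1⟩
  exact hY.mono (le_iSup (fun h : {h // h < g} => 𝒜.comap (T h)) ⟨q, hq⟩) le_rfl

end Pool.Agent.Lib.Pf720aeK
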