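import Pool.Agent.Lib.Pf720aeK.Restrict
import Pool.Agent.Lib.Pf720aeK.Innov

/-!
# From levelled functions to all bounded functions
-/

set_option autoImplicit false
set_option linter.unusedSectionVars false
set_option linter.overlappingInstances false

open MeasureTheory Filter Topology Finset

namespace Pool.Agent.Lib.Pf720aeK

open Pool.Agent.Lib.Pf720ae Pool.Agent.Lib.Pf720ae.Alg

variable {X : Type} {G : Type} [Group G] [LinearOrder G] [MulLeftMono G] [MulRightMono G]
  {T : G →* Equiv.Perm X}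
  {𝒜 π : MeasurableSpace X} [mX : MeasurableSpace X] {μ : Measure X} [IsProbabilityMeasure μ]
  {J : Type} [Fintype J] [DecidableEq J] {k : ℕ}

/-- all functions are levelled or `π`-measurable -/
theorem base (hP : Past T 𝒜 π μ) (g : J → Fin k → G)
    (hg : Function.Injective g) (hg1 : ∀ j, ∃ a, g j a ≠ 1)
    (hcase : π = ⊥ ∨ ((∀ j a, g j a ≠ 1) ∧ ∀ F : J → X → ℝ, (∀ j, Measurable[π] (F j)) →
      (∀ j x, |F j x| ≤ 1) → ∀ᵐ x ∂μ, Cvg fun m => ∏ j, F j (T (wd (g j) m) x)))
    (F : J → X → ℝ)
    (hn : ∀ j, (∃ γ, Lv T 𝒜 μ γ (F j)) ∨ (Measurable[π] (F j) ∧ ∀ x, |F j x| ≤ 1)) :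
    ∀ᵐ x ∂μ, Cvg fun m => ∏ j, F j (T (wd (g j) m) x) := by
  classical
  have hF1 : ∀ j x, |F j x| ≤ 1 := by
    intro j x
    rcases hn j with ⟨γ, h⟩ | h
    · exact h.bdd x
    · exact h.2 x
  have hFm : ∀ j, Measurable (F j) := by
    intro j
    rcases hn j with ⟨γ, h⟩ | h
    · exact h.measurable hP
    · exact h.1.mono hP.pi_le' le_rfl
  set s : Finset J := univ.filter fun j => ∃ γ, Lv T 𝒜 μ γ (F j) with hs
  have hex : ∀ j ∈ s, ∃ γ, Lv T 𝒜 μ γ (F j) := fun j hj => (mem_filter.1 hj).2
  choose! γ hγ using hex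
  have hns : ∀ j ∉ s, Measurable[π] (F j) := by
    intro j hj
    rcases hn j with h | h
    · exact absurd (mem_filter.2 ⟨mem_univ j, h⟩ : j ∈ s) hj
    · exact h.1
  have hS := seqs_wd g hg
  rcases hcase with hπ | ⟨hfull, hconv⟩
  · -- trivial tail
    subst hπ
    obtain ⟨x₀⟩ : Nonempty X := by
      by_contra h
      rw [not_nonempty_iff] at h
      have h1 : μ Set.univ = 0 := by
        rw [Set.univ_eq_empty_iff.2 h]
        simp
      rw [measure_univ] at h1
      exact one_ne_zero h1
    have hconst : ∀ j ∉ s, ∀ x, F j x = F j x₀ := by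
      intro j hj x
      have h1 : MeasurableSet[⊥] (F j ⁻¹' {F j x₀}) := hns j hj (measurableSet_singleton _)
      rw [MeasurableSpace.measurableSet_bot_iff] at h1
      rcases h1 with h1 | h1
      · have : x₀ ∈ F j ⁻¹' {F j x₀} := rfl
        rw [h1] at this
        exact absurd this (Set.notMem_empty _)
      · have : x ∈ F j ⁻¹' {F j x₀} := by rw [h1]; trivial
        exact this
    have hprod : ∀ x (m : Fin k → ℕ), ∏ j, F j (T (wd (g j) m) x) =
        (∏ j ∈ univ.filter (fun j => j ∉ s), F j x₀) *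
          ∏ j : {j // j ∈ s}, F j (T (wd (g j) m) x) := by
      intro x m
      rw [← Finset.prod_filter_mul_prod_filter_not univ (fun j => j ∉ s)]
      congr 1
      · exact Finset.prod_congr rfl fun j hj => hconst j (mem_filter.1 hj).2 _
      · refine Finset.prod_subtype _ (fun j => ?_) fun j => F j (T (wd (g j) m) x)
        simp
    rcases s.eq_empty_or_nonempty with he | hne
    · refine Eventually.of_forall fun x => ?_
      refine (Cvg.const (∏ j ∈ univ.filter (fun j => j ∉ s), F j x₀)).congr fun m => ?_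
      rw [hprod]
      have : IsEmpty {j // j ∈ s} := by
        rw [he]
        exact ⟨fun j => absurd j.2 (Finset.notMem_empty _)⟩
      simp
    · have h1 := ae_zero_levels (J := {j // j ∈ s}) hP
        (seqs_wd (fun j : {j // j ∈ s} => g j) (hg.comp Subtype.val_injective))
        (fun j => γ j) (fun j => F j) (fun j => hγ j j.2)
        ⟨⟨hne.choose, hne.choose_spec⟩⟩ (fun j => hg1 j)
      filter_upwards [h1] with x hx
      have h2 : Cvg fun m : Fin k → ℕ => ∏ j : {j // j ∈ s}, F j (T (wd (g j) m) x) := ⟨0, hx⟩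
      exact (h2.smul (∏ j ∈ univ.filter (fun j => j ∉ s), F j x₀)).congr
        fun m => (hprod x m).symm
  · rcases s.eq_empty_or_nonempty with he | hne
    · refine hconv F (fun j => hns j ?_) hF1
      rw [he]
      exact Finset.notMem_empty _
    · obtain ⟨j₀, hj₀⟩ := hne
      obtain ⟨a₀, -⟩ := hg1 j₀
      have : Nonempty (Fin k) := ⟨a₀⟩
      have h1 := ae_zero hP hS s γ F hFm (fun j hj => hγ j hj) hns hF1
        (fun a => ⟨j₀, hj₀, hfull j₀ a⟩)
      filter_upwards [h1] with x hx
      exact ⟨0, hx⟩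

theorem mixed (hP : Past T 𝒜 π μ) (hI : Inn T 𝒜 π μ) (g : J → Fin k → G)
    (hg : Function.Injective g) (hg1 : ∀ j, ∃ a, g j a ≠ 1)
    (hcase : π = ⊥ ∨ ((∀ j a, g j a ≠ 1) ∧ ∀ F : J → X → ℝ, (∀ j, Measurable[π] (F j)) →
      (∀ j x, |F j x| ≤ 1) → ∀ᵐ x ∂μ, Cvg fun m => ∏ j, F j (T (wd (g j) m) x)))
    (s : Finset J) (F : J → X → ℝ)
    (hs : ∀ j ∈ s, Measurable (F j) ∧ ∀ x, |F j x| ≤ 1)
    (hn : ∀ j ∉ s, (∃ γ, Lv T 𝒜 μ γ (F j)) ∨ (Measurable[π] (F j) ∧ ∀ x, |F j x| ≤ 1)) :
    ∀ᵐ x ∂μ, Cvg fun m => ∏ j, F j (T (wd (g j) m) x) := by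
  classical
  induction s using Finset.induction_on generalizing F with
  | empty => exact base hP g hg hg1 hcase F fun j => hn j (Finset.notMem_empty j)
  | insert a s ha ih =>
    have hF1 : ∀ j x, |F j x| ≤ 1 := by
      intro j x
      by_cases hj : j ∈ insert a s
      · exact (hs j hj).2 x
      · rcases hn j hj with ⟨γ, h⟩ | h
        · exact h.bdd x
        · exact h.2 x
    set R : X → (Fin k → ℕ) → ℝ := fun x m => ∏ j ∈ univ.erase a, F j (T (wd (g j) m) x) with hR
    have hR1 : ∀ x m, |R x m| ≤ 1 := by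
      intro x m
      simp only [hR]
      rw [Finset.abs_prod]
      exact Finset.prod_le_one (fun i _ => abs_nonneg _) fun i _ => hF1 _ _
    -- replace the function `a`
    have hrep : ∀ h : X → ℝ, ((∃ γ, Lv T 𝒜 μ γ h) ∨ (Measurable[π] h ∧ ∀ x, |h x| ≤ 1)) →
        ∀ᵐ x ∂μ, Cvg fun m => h (T (wd (g a) m) x) * R x m := by
      intro h hh
      have h1 := ih (Function.update F a h) (by
        intro j hj
        have hja : j ≠ a := fun h => ha (h ▸ hj)
        rw [Function.update_of_ne hja]
        exact hs j (mem_insert_of_mem hj)) (by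
        intro j hj
        by_cases hja : j = a
        · subst hja
          rw [Function.update_self]
          exact hh
        · rw [Function.update_of_ne hja]
          exact hn j fun h => (mem_insert.1 h).elim hja hj)
      filter_upwards [h1] with x hx
      refine hx.congr fun m => ?_
      rw [← Finset.mul_prod_erase univ _ (mem_univ a), Function.update_self]
      congr 1
      refine Finset.prod_congr rfl fun j hj => ?_
      rw [Function.update_of_ne (ne_of_mem_erase hj)]
    set U : (Fin k → ℕ) → X → X := fun m x => T (wd (g a) m) x with hU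
    set W : X → Set ((Fin k → ℕ) → ℝ) := fun x => {R x} with hW
    have hUmp : ∀ m, MeasurePreserving (U m) μ μ := fun m => hP.mp _
    have hW1 : ∀ x, ∀ w ∈ W x, ∀ m, |w m| ≤ 1 := by
      rintro x w rfl m
      exact hR1 x m
    have hgood : ∀ h : X → ℝ, ((∃ γ, Lv T 𝒜 μ γ h) ∨ (Measurable[π] h ∧ ∀ x, |h x| ≤ 1)) →
        Cv μ U W h := by
      intro h hh
      filter_upwards [hrep h hh] with x hx
      rintro w rfl
      exact hx
    have hFa := hs a (mem_insert_self _ _)
    have hFL : MemLp (F a) 2 μ := MemLp.of_bound hFa.1.aestronglyMeasurable 1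
      (Eventually.of_forall fun x => by simpa using hFa.2 x)
    have hmain : Cv μ U W (F a) := by
      refine principle' (fun h hh => lintegral_NS_sq' (ordd_wd T (g a)) hUmp hh) hUmp hW1
        (fun φ _ hφL hφ => ?_) (F a) hFL
      have hzero : φ =ᵐ[μ] 0 := by
        refine eq_zero_of_orth hP hI hφL (fun γ h hh => ?_) fun h hh hh1 => ?_
        · exact hφ h (hh.measurable hP) hh.bdd (hgood h (Or.inl ⟨γ, hh⟩))
        · exact hφ h (hh.mono hP.pi_le' le_rfl) hh1 (hgood h (Or.inr ⟨hh, hh1⟩))
      exact Cv.congr hUmp hzero.symm Cv.zero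
    filter_upwards [hmain] with x hx
    refine (hx (R x) rfl).congr fun m => ?_
    rw [← Finset.mul_prod_erase univ _ (mem_univ a)]

end Pool.Agent.Lib.Pf720aeK
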