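import Pool.Agent.Lib.Pf720ae.Alg.AE

/-!
# Past algebras of measure preserving actions of ordered groups

`Past T 𝒜 π μ`: the algebras `T_g⁻¹ 𝒜` increase with `g`; `π` is an invariant algebra inside `𝒜`.
`Lv T 𝒜 μ g h`: the function `h` (bounded by one) is `T_g⁻¹ 𝒜`-measurable and orthogonal to all
bounded functions measurable with respect to `T_q⁻¹ 𝒜`, `q < g`.
-/

set_option autoImplicit false
set_option linter.unusedSectionVars false

open MeasureTheory Filter Topology Finset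

namespace Pool.Agent.Lib.Pf720aeK

variable {X : Type} {G : Type} [Group G] [LinearOrder G] {T : G →* Equiv.Perm X}
  {𝒜 π : MeasurableSpace X} [mX : MeasurableSpace X] {μ : Measure X}

structure Past (T : G →* Equiv.Perm X) (𝒜 π : MeasurableSpace X) [mX : MeasurableSpace X]
    (μ : Measure X) : Prop where
  mp : ∀ g, MeasurePreserving (T g) μ μ
  le : 𝒜 ≤ mX
  mono : ∀ g h, g ≤ h → 𝒜.comap (T g) ≤ 𝒜.comap (T h)
  tail : π ≤ 𝒜
  inv : ∀ g, π.comap (T g) = π

structure Lv (T : G →* Equiv.Perm X) (𝒜 : MeasurableSpace X) [mX : MeasurableSpace X]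
    (μ : Measure X) (g : G) (h : X → ℝ) : Prop where
  meas : Measurable[𝒜.comap (T g)] h
  bdd : ∀ x, |h x| ≤ 1
  orth : ∀ q < g, ∀ Y : X → ℝ, Measurable[𝒜.comap (T q)] Y → (∀ x, |Y x| ≤ 1) →
    ∫ x, h x * Y x ∂μ = 0

lemma comap_comap_mul (T : G →* Equiv.Perm X) (m : MeasurableSpace X) (g s : G) :
    (m.comap (T g)).comap (T s) = m.comap (T (g * s)) := by
  rw [MeasurableSpace.comap_comp]
  congr 1
  rw [map_mul]
  rfl

lemma Past.pi_le (hP : Past T 𝒜 π μ) (g : G) : π ≤ 𝒜.comap (T g) := by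
  rw [← hP.inv g]
  exact MeasurableSpace.comap_mono hP.tail

lemma Past.pst_le (hP : Past T 𝒜 π μ) (g : G) : 𝒜.comap (T g) ≤ mX := by
  have h1 : 𝒜.comap (T g) ≤ mX.comap (T g) := MeasurableSpace.comap_mono hP.le
  exact h1.trans (hP.mp g).measurable.comap_le

lemma Past.pi_le' (hP : Past T 𝒜 π μ) : π ≤ mX := hP.tail.trans hP.le

lemma Lv.measurable (hP : Past T 𝒜 π μ) {g : G} {h : X → ℝ} (hh : Lv T 𝒜 μ g h) :
    Measurable h :=
  hh.meas.mono (hP.pst_le g) le_rfl

lemma meas_comp {m : MeasurableSpace X} {s : G} {h : X → ℝ} (hh : Measurable[m] h) :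
    Measurable[m.comap (T s)] fun x => h (T s x) :=
  hh.comp (comap_measurable (T s))

lemma Past.meas_pi (hP : Past T 𝒜 π μ) {s : G} {h : X → ℝ} (hh : Measurable[π] h) :
    Measurable[π] fun x => h (T s x) := by
  have := meas_comp (T := T) (s := s) hh
  rwa [hP.inv s] at this

lemma T_inv_apply (T : G →* Equiv.Perm X) (s : G) (x : X) : T s⁻¹ (T s x) = x := by
  rw [map_inv]
  exact (T s).symm_apply_apply x

lemma Past.integral_comp (hP : Past T 𝒜 π μ) (s : G) (F : X → ℝ) :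
    ∫ x, F (T s x) ∂μ = ∫ x, F x ∂μ := by
  have hs : (T s).symm = T s⁻¹ := by rw [map_inv]; rfl
  exact (hP.mp s).integral_comp' (f := MeasurableEquiv.mk (T s) (hP.mp s).measurable
    (hs ▸ (hP.mp s⁻¹).measurable)) F

/-- composition shifts the level -/
lemma Lv.comp [MulRightMono G] (hP : Past T 𝒜 π μ) {g : G} {h : X → ℝ}
    (hh : Lv T 𝒜 μ g h) (s : G) : Lv T 𝒜 μ (g * s) (fun x => h (T s x)) := by
  refine ⟨?_, fun x => hh.bdd _, fun q hq Y hY hY1 => ?_⟩
  · rw [← comap_comap_mul]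
    exact meas_comp hh.meas
  · have h1 : Measurable[𝒜.comap (T (q * s⁻¹))] fun x => Y (T s⁻¹ x) := by
      rw [← comap_comap_mul]
      exact meas_comp hY
    have hq' : q * s⁻¹ < g := by
      rwa [mul_inv_lt_iff_lt_mul]
    have h2 := hh.orth (q * s⁻¹) hq' _ h1 fun x => hY1 _
    rw [← hP.integral_comp s] at h2
    simpa only [T_inv_apply] using h2

/-- a product of levelled functions with a strictly largest level has integral zero -/
theorem integral_eq_zero (hP : Past T 𝒜 π μ) {I : Type} [Fintype I] [DecidableEq I]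
    (b : I → X → ℝ) (p : I → G) (hb : ∀ i, Lv T 𝒜 μ (p i) (b i)) (Y : X → ℝ)
    (hY : Measurable[π] Y) (hY1 : ∀ x, |Y x| ≤ 1) (i₀ : I) (hi₀ : ∀ i, i ≠ i₀ → p i < p i₀)
    (hG : ∃ q, q < p i₀) : ∫ x, (∏ i, b i x) * Y x ∂μ = 0 := by
  obtain ⟨q₀, hq₀⟩ := hG
  obtain ⟨q, hq, hqi⟩ : ∃ q, q < p i₀ ∧ ∀ i, i ≠ i₀ → p i ≤ q := by
    have hne : (insert q₀ ((univ.erase i₀).image p)).Nonempty := ⟨q₀, mem_insert_self _ _⟩
    refine ⟨(insert q₀ ((univ.erase i₀).image p)).max' hne, ?_, fun i hi => ?_⟩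
    · rw [Finset.max'_lt_iff]
      intro y hy
      rcases mem_insert.1 hy with rfl | hy
      · exact hq₀
      · obtain ⟨i, hi, rfl⟩ := mem_image.1 hy
        exact hi₀ i (ne_of_mem_erase hi)
    · exact Finset.le_max' _ _ (mem_insert_of_mem (mem_image_of_mem p
        (mem_erase.2 ⟨hi, mem_univ _⟩)))
  have h1 : ∀ x, (∏ i, b i x) * Y x = b i₀ x * ((∏ i ∈ univ.erase i₀, b i x) * Y x) := by
    intro x
    rw [← Finset.mul_prod_erase univ (fun i => b i x) (mem_univ i₀), mul_assoc]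
  simp_rw [h1]
  refine (hb i₀).orth q hq _ ?_ ?_
  · refine Measurable.mul ?_ (hY.mono (hP.pi_le q) le_rfl)
    refine Finset.measurable_fun_prod _ fun i hi => ?_
    exact (hb i).meas.mono (hP.mono _ _ (hqi i (ne_of_mem_erase hi))) le_rfl
  · intro x
    rw [abs_mul, Finset.abs_prod]
    exact mul_le_one₀ (Finset.prod_le_one (fun i _ => abs_nonneg _) fun i _ => (hb i).bdd x)
      (abs_nonneg _) (hY1 x)

end Pool.Agent.Lib.Pf720aeK
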