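import Pool.Agent.Lib.Pf720ae.Principle

/-!
# The principle for ordered products of one-parameter semigroups

The maximal inequality and the closed subspace of good functions of `Pool.Agent.Lib.Pf720ae`, for
maps `U m = U_0^{m_0} ∘ U_1^{m_1} ∘ ⋯` that need not commute.
-/

set_option autoImplicit false
set_option linter.unusedSectionVars false

open MeasureTheory Filter Topology Finset
open scoped ENNReal NNReal

namespace Pool.Agent.Lib.Pf720aeK

open Pool.Agent.Lib.Pf720ae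

section ord

variable {κ : Type} [Fintype κ] [LinearOrder κ] {X : Type} [MeasurableSpace X] {μ : Measure X}
  {U : (κ → ℕ) → X → X}

/-- `U` is the ordered product of the iterates of the maps `U (single a 1)` -/
structure Ordd (U : (κ → ℕ) → X → X) : Prop where
  zero : ∀ x, U 0 x = x
  iter : ∀ a t x, U (Pi.single a t) x = (U (Pi.single a 1))^[t] x
  add : ∀ (m : κ → ℕ) a t x, (∀ l, m l ≠ 0 → l < a) →
    U (m + Pi.single a t) x = U m (U (Pi.single a t) x)

lemma PN_insert_le' (hU : Ordd U)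
    {s : Finset κ} {a : κ} (ha : ∀ b ∈ s, b < a) (g : X → ℝ≥0∞) (x : X) :
    PN U (insert a s) g x ≤ Mx (U (Pi.single a 1)) (PN U s g) x := by
  have ha' : a ∉ s := fun h => lt_irrefl _ (ha a h)
  refine iSup_le fun M => ?_
  refine le_trans ?_ (le_iSup _ (M a))
  rw [Finset.prod_insert ha', ENNReal.mul_inv (Or.inl (by simp)) (Or.inl (by finiteness)),
    sum_boxs_insert ha', mul_assoc, Finset.mul_sum]
  unfold Am
  gcongr with t _
  rw [← hU.iter]
  refine le_trans (le_of_eq ?_) (le_iSup _ M)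
  congr 1
  refine Finset.sum_congr rfl fun m hm => ?_
  rw [hU.add m a t x]
  intro l hl
  have h1 := (mem_boxs.1 hm) l
  by_cases hls : l ∈ s
  · exact ha l hls
  · rw [if_neg hls] at h1
    exact absurd h1 hl

lemma lintegral_PN_sq' [IsFiniteMeasure μ] (hU : Ordd U) (hUmp : ∀ m, MeasurePreserving (U m) μ μ)
    (s : Finset κ) {g : X → ℝ≥0∞} (hg : Measurable g) :
    ∫⁻ x, (PN U s g x) ^ 2 ∂μ ≤ 4 ^ s.card * ∫⁻ x, (g x) ^ 2 ∂μ := by
  induction s using Finset.induction_on_max with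
  | empty =>
    have : ∀ x, PN U ∅ g x = g x := by
      intro x
      have h1 : ∀ M : κ → ℕ, boxs (∅ : Finset κ) M = {0} := by
        intro M
        ext m
        rw [mem_boxs]
        simp [funext_iff]
      simp [PN, h1, hU.zero]
    simp [this]
  | insert a s ha ih =>
    have ha' : a ∉ s := fun h => lt_irrefl _ (ha a h)
    have hPm := measurable_PN (fun m => (hUmp m).measurable) s hg
    calc ∫⁻ x, (PN U (insert a s) g x) ^ 2 ∂μ
        ≤ ∫⁻ x, (Mx (U (Pi.single a 1)) (PN U s g) x) ^ 2 ∂μ := by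
          gcongr with x
          exact PN_insert_le' hU ha g x
      _ ≤ 4 * ∫⁻ x, (PN U s g x) ^ 2 ∂μ := strong (hUmp _) hPm
      _ ≤ 4 * (4 ^ s.card * ∫⁻ x, (g x) ^ 2 ∂μ) := by gcongr
      _ = 4 ^ (insert a s).card * ∫⁻ x, (g x) ^ 2 ∂μ := by
          rw [Finset.card_insert_of_notMem ha', pow_succ]; ring

theorem lintegral_NS_sq' [IsFiniteMeasure μ] (hU : Ordd U)
    (hUmp : ∀ m, MeasurePreserving (U m) μ μ) {g : X → ℝ≥0∞} (hg : Measurable g) :
    ∫⁻ x, (NS U g x) ^ 2 ∂μ ≤ 4 ^ (Fintype.card κ) * ∫⁻ x, (g x) ^ 2 ∂μ :=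
  lintegral_PN_sq' hU hUmp Finset.univ hg

end ord

variable {κ : Type} [Fintype κ] [DecidableEq κ] {X : Type} [MeasurableSpace X] {μ : Measure X}
  {U : (κ → ℕ) → X → X} {W : X → Set ((κ → ℕ) → ℝ)}

/-- closedness -/
lemma Cv_of_tendsto' [IsFiniteMeasure μ] (hNS : ∀ g : X → ℝ≥0∞, Measurable g →
      ∫⁻ x, (NS U g x) ^ 2 ∂μ ≤ 4 ^ (Fintype.card κ) * ∫⁻ x, (g x) ^ 2 ∂μ)
    (hU : ∀ m, MeasurePreserving (U m) μ μ)
    (hW : ∀ x, ∀ w ∈ W x, ∀ m, |w m| ≤ 1)
    {φ : X → ℝ} (hφ : Measurable φ) {ψ : ℕ → X → ℝ} (hψ : ∀ n, Measurable (ψ n))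
    (hC : ∀ n, Cv μ U W (ψ n))
    (ht : Tendsto (fun n => ∫⁻ x, (ENNReal.ofReal |φ x - ψ n x|) ^ 2 ∂μ) atTop (𝓝 0)) :
    Cv μ U W φ := by
  set g : ℕ → X → ℝ≥0∞ := fun n x => ENNReal.ofReal |φ x - ψ n x| with hg
  have hgm : ∀ n, Measurable (g n) := fun n =>
    (continuous_abs.measurable.comp (hφ.sub (hψ n))).ennreal_ofReal
  have hUm : ∀ m, Measurable (U m) := fun m => (hU m).measurable
  -- lower limit of the maximal functions vanishes a.e.
  have hlim : ∫⁻ x, liminf (fun n => (NS U (g n) x) ^ 2) atTop ∂μ = 0 := by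
    have h1 : ∫⁻ x, liminf (fun n => (NS U (g n) x) ^ 2) atTop ∂μ
        ≤ liminf (fun n => ∫⁻ x, (NS U (g n) x) ^ 2 ∂μ) atTop :=
      lintegral_liminf_le fun n => (measurable_NS hUm (hgm n)).pow_const 2
    have h2 : Tendsto (fun n => ∫⁻ x, (NS U (g n) x) ^ 2 ∂μ) atTop (𝓝 0) := by
      have h3 : Tendsto (fun n => 4 ^ (Fintype.card κ) * ∫⁻ x, (g n x) ^ 2 ∂μ) atTop
          (𝓝 (4 ^ (Fintype.card κ) * 0)) :=
        ENNReal.Tendsto.const_mul ht (Or.inr (by finiteness))
      rw [mul_zero] at h3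
      exact tendsto_of_tendsto_of_tendsto_of_le_of_le tendsto_const_nhds h3
        (fun _ => zero_le) (fun n => hNS _ (hgm n))
    rw [h2.liminf_eq] at h1
    exact le_antisymm h1 zero_le
  have hae : ∀ᵐ x ∂μ, liminf (fun n => (NS U (g n) x) ^ 2) atTop = 0 := by
    rw [lintegral_eq_zero_iff (Measurable.liminf fun n =>
      (measurable_NS hUm (hgm n)).pow_const 2)] at hlim
    exact hlim
  have hCall : ∀ᵐ x ∂μ, ∀ n, ∀ w ∈ W x, Cvg fun m => ψ n (U m x) * w m := ae_all_iff.2 hC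
  filter_upwards [hae, hCall] with x hx hCx w hw
  refine exists_tendsto_of_approx _ fun ε hε => ?_
  have h1 : liminf (fun n => (NS U (g n) x) ^ 2) atTop < (ENNReal.ofReal ε) ^ 2 := by
    rw [hx]
    have : 0 < ENNReal.ofReal ε := ENNReal.ofReal_pos.2 hε
    positivity
  obtain ⟨n, hn⟩ := (frequently_lt_of_liminf_lt (by isBoundedDefault) h1).exists
  have hn' : NS U (g n) x < ENNReal.ofReal ε := by
    by_contra hcon
    exact absurd hn (not_lt.2 (pow_le_pow_left' (not_lt.1 hcon) 2))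
  refine ⟨fun M => avg M fun m => ψ n (U m x) * w m, hCx n w hw, ?_⟩
  filter_upwards [eventually_pos] with M hM
  rw [← avg_sub]
  have h2 : |avg M fun m => φ (U m x) * w m - ψ n (U m x) * w m|
      ≤ avg M fun m => |φ (U m x) - ψ n (U m x)| := by
    refine (abs_avg_le _ _).trans (avg_mono M fun m => ?_)
    rw [← sub_mul, abs_mul]
    exact mul_le_of_le_one_right (abs_nonneg _) (hW x w hw m)
  refine h2.trans ?_
  have h3 := ofReal_avg_le_NS (U := U) hM (fun x => |φ x - ψ n x|) (fun x => abs_nonneg _) x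
  have h4 : ENNReal.ofReal (avg M fun m => |φ (U m x) - ψ n (U m x)|) < ENNReal.ofReal ε :=
    lt_of_le_of_lt h3 hn'
  exact ((ENNReal.ofReal_lt_ofReal_iff hε).1 h4).le

/-- The principle: to show convergence for all square integrable functions it is enough to show
it for those orthogonal to all bounded good functions. -/
theorem principle' [IsFiniteMeasure μ] (hNS : ∀ g : X → ℝ≥0∞, Measurable g →
      ∫⁻ x, (NS U g x) ^ 2 ∂μ ≤ 4 ^ (Fintype.card κ) * ∫⁻ x, (g x) ^ 2 ∂μ)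
    (hU : ∀ m, MeasurePreserving (U m) μ μ)
    (hW : ∀ x, ∀ w ∈ W x, ∀ m, |w m| ≤ 1)
    (h : ∀ φ : X → ℝ, Measurable φ → MemLp φ 2 μ →
      (∀ ψ : X → ℝ, Measurable ψ → (∀ x, |ψ x| ≤ 1) → Cv μ U W ψ → ∫ x, φ x * ψ x ∂μ = 0) →
      Cv μ U W φ)
    (φ : X → ℝ) (hφ : MemLp φ 2 μ) : Cv μ U W φ := by
  -- the subspace
  let V : Submodule ℝ (Lp ℝ 2 μ) :=
    { carrier := {f | Cv μ U W f}
      add_mem' := by
        intro f g hf hg
        exact Cv.congr hU (Lp.coeFn_add f g).symm (Cv.add hf hg)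
      zero_mem' := Cv.congr hU (Lp.coeFn_zero ℝ 2 μ).symm Cv.zero
      smul_mem' := by
        intro c f hf
        exact Cv.congr hU (Lp.coeFn_smul c f).symm (Cv.smul hf c) }
  have hVmem : ∀ f : Lp ℝ 2 μ, f ∈ V ↔ Cv μ U W f := fun f => Iff.rfl
  have hVclosed : IsClosed (V : Set (Lp ℝ 2 μ)) := by
    refine IsSeqClosed.isClosed ?_
    intro fn f hfn hlim
    have hmf : Measurable (fun x => f x) := (Lp.stronglyMeasurable f).measurable
    have hmfn : ∀ n, Measurable (fun x => fn n x) := fun n =>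
      (Lp.stronglyMeasurable (fn n)).measurable
    refine Cv_of_tendsto' hNS hU hW hmf hmfn hfn ?_
    rw [Lp.tendsto_Lp_iff_tendsto_eLpNorm'] at hlim
    have h1 : ∀ n, ∫⁻ x, (ENNReal.ofReal |f x - fn n x|) ^ 2 ∂μ
        = (eLpNorm (⇑(fn n) - ⇑f) 2 μ) ^ 2 := by
      intro n
      rw [eLpNorm_eq_lintegral_rpow_enorm_toReal (by norm_num) (by norm_num)]
      simp only [ENNReal.toReal_ofNat, Pi.sub_apply]
      rw [← ENNReal.rpow_natCast, ← ENNReal.rpow_mul]
      norm_num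
      refine lintegral_congr fun x => ?_
      rw [← Real.enorm_eq_ofReal_abs, ← enorm_neg, neg_sub]
    simp_rw [h1]
    have h2 := (ENNReal.continuous_pow 2).tendsto 0 |>.comp hlim
    simpa [Function.comp_def] using h2
  have hVperp : Vᗮ = ⊥ := by
    rw [Submodule.eq_bot_iff]
    intro f hf
    have hmf : Measurable (fun x => f x) := (Lp.stronglyMeasurable f).measurable
    have hfV : f ∈ V := by
      refine (hVmem f).2 (h _ hmf (Lp.memLp f) ?_)
      intro ψ hψ hψ1 hCψ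
      have hψL : MemLp ψ 2 μ := MemLp.of_bound hψ.aestronglyMeasurable 1
        (Eventually.of_forall fun x => by simpa using hψ1 x)
      have h1 : hψL.toLp ψ ∈ V := (hVmem _).2 (Cv.congr hU hψL.coeFn_toLp.symm hCψ)
      have h2 := (Submodule.mem_orthogonal _ _).1 hf _ h1
      rw [L2.inner_def] at h2
      rw [← h2]
      refine integral_congr_ae ?_
      filter_upwards [hψL.coeFn_toLp] with x hx
      rw [hx]
      simp [mul_comm]
    have h3 := (Submodule.mem_orthogonal _ _).1 hf _ hfV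
    exact inner_self_eq_zero.1 h3
  have hVtop : V = ⊤ := by
    have h1 := (Submodule.topologicalClosure_eq_top_iff (K := V)).2 hVperp
    rwa [IsClosed.submodule_topologicalClosure_eq hVclosed] at h1
  have h1 : hφ.toLp φ ∈ V := by rw [hVtop]; trivial
  exact Cv.congr hU hφ.coeFn_toLp ((hVmem _).1 h1)

end Pool.Agent.Lib.Pf720aeK
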