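import Pool.Agent.Lib.Pf720aeK.Mix

/-!
# Arbitrary tuples of words
-/

set_option autoImplicit false
set_option linter.unusedSectionVars false
set_option linter.overlappingInstances false

open MeasureTheory Filter Topology Finset

namespace Pool.Agent.Lib.Pf720aeK

open Pool.Agent.Lib.Pf720ae Pool.Agent.Lib.Pf720ae.Alg

lemma wd_one {G : Type} [Group G] {k : ℕ} (g : Fin k → G) (h : ∀ a, g a = 1) (m : Fin k → ℕ) :
    wd g m = 1 := by
  unfold wd
  refine List.prod_eq_one fun x hx => ?_
  rw [List.mem_ofFn] at hx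
  obtain ⟨a, rfl⟩ := hx
  rw [h a, one_pow]

variable {X : Type} {G : Type} [Group G] [LinearOrder G] [MulLeftMono G] [MulRightMono G]
  {T : G →* Equiv.Perm X}
  {𝒜 π : MeasurableSpace X} [mX : MeasurableSpace X] {μ : Measure X} [IsProbabilityMeasure μ]

theorem realK (hP : Past T 𝒜 π μ) (hI : Inn T 𝒜 π μ) {n k : ℕ} (g : Fin n → Fin k → G)
    (c : Fin n → G)
    (hcase : π = ⊥ ∨ ((∀ j a, g j a ≠ 1) ∧ ∀ F : Fin n → X → ℝ, (∀ j, Measurable[π] (F j)) →
      (∀ j x, |F j x| ≤ 1) → ∀ᵐ x ∂μ, Cvg fun m => ∏ j, F j (T (c j * wd (g j) m) x)))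
    (F : Fin n → X → ℝ) (hFm : ∀ j, Measurable (F j)) (hF1 : ∀ j x, |F j x| ≤ 1) :
    ∀ᵐ x ∂μ, Cvg fun m => ∏ j, F j (T (c j * wd (g j) m) x) := by
  classical
  set S : Finset (Fin k → G) := (univ.image g).filter fun v => ∃ a, v a ≠ 1 with hS
  have hSg : ∀ v ∈ S, ∃ j, g j = v := by
    intro v hv
    obtain ⟨j, -, hj⟩ := mem_image.1 (mem_filter.1 hv).1
    exact ⟨j, hj⟩
  have hS1 : ∀ v : S, ∃ a, (v : Fin k → G) a ≠ 1 := fun v => (mem_filter.1 v.2).2
  set F' : Fin n → X → ℝ := fun j x => F j (T (c j) x) with hF'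
  have hF'm : ∀ j, Measurable (F' j) := fun j => (hFm j).comp (hP.mp (c j)).measurable
  have hF'1 : ∀ j x, |F' j x| ≤ 1 := fun j x => hF1 _ _
  have hTc : ∀ j (m : Fin k → ℕ) x, F j (T (c j * wd (g j) m) x) = F' j (T (wd (g j) m) x) := by
    intro j m x
    rw [map_mul]
    rfl
  set E : S → X → ℝ := fun v x => ∏ j ∈ univ.filter (fun j => g j = v), F' j x with hE
  have hEm : ∀ v, Measurable (E v) := fun v => Finset.measurable_fun_prod _ fun j _ => hF'm j
  have hE1 : ∀ v x, |E v x| ≤ 1 := by
    intro v x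
    simp only [hE]
    rw [Finset.abs_prod]
    exact Finset.prod_le_one (fun i _ => abs_nonneg _) fun i _ => hF'1 _ _
  have hinj : Function.Injective fun v : S => (v : Fin k → G) := Subtype.val_injective
  -- the hypothesis for the classes
  have hcase' : π = ⊥ ∨ ((∀ (v : S) a, (v : Fin k → G) a ≠ 1) ∧
      ∀ F : S → X → ℝ, (∀ v, Measurable[π] (F v)) → (∀ v x, |F v x| ≤ 1) →
        ∀ᵐ x ∂μ, Cvg fun m => ∏ v, F v (T (wd (v : Fin k → G) m) x)) := by
    rcases hcase with h | ⟨hfull, hconv⟩
    · exact Or.inl h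
    · refine Or.inr ⟨fun v a => ?_, fun K hK hK1 => ?_⟩
      · obtain ⟨j, hj⟩ := hSg v v.2
        rw [← hj]
        exact hfull j a
      · choose r hr using fun v : S => hSg v v.2
        have hrinj : Function.Injective r := fun v w h => by
          apply Subtype.ext
          rw [← hr v, ← hr w, h]
        set K' : Fin n → X → ℝ := Function.extend r
          (fun v x => K v (T (c (r v))⁻¹ x)) (fun _ _ => 1) with hK'
        have hK'r : ∀ v, K' (r v) = fun x => K v (T (c (r v))⁻¹ x) := fun v =>
          hrinj.extend_apply _ _ v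
        have hK'n : ∀ j, j ∉ Set.range r → K' j = fun _ => 1 := fun j hj =>
          Function.extend_apply' _ _ _ (by simpa using hj)
        have h1 := hconv K' (fun j => by
            by_cases hj : j ∈ Set.range r
            · obtain ⟨v, rfl⟩ := hj
              rw [hK'r]
              exact hP.meas_pi (hK v)
            · rw [hK'n j hj]
              exact measurable_const) (fun j x => by
            by_cases hj : j ∈ Set.range r
            · obtain ⟨v, rfl⟩ := hj
              rw [hK'r]
              exact hK1 _ _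
            · rw [hK'n j hj]
              simp)
        filter_upwards [h1] with x hx
        refine hx.congr fun m => ?_
        symm
        refine Fintype.prod_of_injective r hrinj _ _ (fun j hj => ?_) fun v => ?_
        · rw [hK'n j hj]
        · rw [hK'r, hr v, map_mul, Equiv.Perm.mul_apply]
          simp only [T_inv_apply]
  have h1 := mixed (J := S) hP hI (fun v => (v : Fin k → G)) hinj hS1 hcase' univ E
    (fun v _ => ⟨hEm v, hE1 v⟩) (fun v hv => absurd (mem_univ v) hv)
  filter_upwards [h1] with x hx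
  refine (hx.smul (∏ j ∈ univ.filter (fun j => ¬ ∃ a, g j a ≠ 1), F' j x)).congr fun m => ?_
  simp_rw [hTc]
  rw [← Finset.prod_filter_mul_prod_filter_not univ (fun j => ¬ ∃ a, g j a ≠ 1)]
  congr 1
  · refine Finset.prod_congr rfl fun j hj => ?_
    have h2 := (mem_filter.1 hj).2
    have h2 : ∀ a, g j a = 1 := fun a => by_contra fun h => h2 ⟨a, h⟩
    rw [wd_one _ h2, map_one]
    rfl
  · have e1 : (univ.filter fun j => ¬ ¬ ∃ a, g j a ≠ 1) = univ.filter fun j => ∃ a, g j a ≠ 1 := by
      refine Finset.filter_congr fun j _ => ?_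
      rw [not_not]
    rw [e1, ← Finset.prod_fiberwise_of_maps_to (t := S) (g := g) (fun j hj =>
      mem_filter.2 ⟨mem_image_of_mem g (mem_univ j), (mem_filter.1 hj).2⟩)]
    rw [← Finset.prod_coe_sort S]
    refine Finset.prod_congr rfl fun v _ => ?_
    simp only [hE]
    rw [Finset.filter_filter]
    refine Finset.prod_congr ?_ fun j hj => ?_
    · refine Finset.filter_congr fun j _ => ?_
      constructor
      · intro h
        exact ⟨h ▸ hS1 v, h⟩
      · exact fun h => h.2
    · rw [(mem_filter.1 hj).2.2]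

end Pool.Agent.Lib.Pf720aeK
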