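import Pool.Agent.Lib.Pf720aeK.Word

/-!
# Forgetting the coordinates on which nothing depends
-/

set_option autoImplicit false
set_option linter.unusedSectionVars false

open MeasureTheory Filter Topology Finset

namespace Pool.Agent.Lib.Pf720aeK

open Pool.Agent.Lib.Pf720ae Pool.Agent.Lib.Pf720ae.Alg

variable {κ : Type} [Fintype κ] [DecidableEq κ] (p : κ → Prop) [DecidablePred p]

/-- extension by zero -/
def ext0 (m : {a // p a} → ℕ) : κ → ℕ := fun a => if h : p a then m ⟨a, h⟩ else 0

/-- restriction -/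
def res (m : κ → ℕ) : {a // p a} → ℕ := fun a => m a

variable {p}

lemma ext0_update (m : {a // p a} → ℕ) (a : {a // p a}) (t : ℕ) :
    ext0 p (Function.update m a t) = Function.update (ext0 p m) (a : κ) t := by
  funext b
  unfold ext0
  by_cases hb : b = a
  · subst hb
    simp [a.2]
  · rw [Function.update_of_ne hb]
    split_ifs with h
    · rw [Function.update_of_ne]
      exact fun h' => hb (congrArg Subtype.val h')
    · rfl

lemma ext0_res_apply (m : κ → ℕ) {a : κ} (ha : p a) : ext0 p (res p m) a = m a := by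
  unfold ext0 res
  rw [dif_pos ha]

/-- a function that does not depend on the coordinates outside `p` -/
lemma eq_of_indep {β : Type*} {φ : (κ → ℕ) → β}
    (h : ∀ a, ¬ p a → ∀ m t, φ (Function.update m a t) = φ m) (m m' : κ → ℕ)
    (hm : ∀ a, p a → m a = m' a) : φ m = φ m' := by
  have key : ∀ S : Finset κ, (∀ a ∈ S, ¬ p a) →
      φ (fun a => if a ∈ S then m' a else m a) = φ m := by
    intro S
    induction S using Finset.induction_on with
    | empty => intro _; simp
    | insert b S hb ih =>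
      intro hS
      rw [← ih fun a ha => hS a (mem_insert_of_mem ha)]
      rw [← h b (hS b (mem_insert_self _ _)) (fun a => if a ∈ S then m' a else m a) (m' b)]
      congr 1
      funext a
      by_cases hab : a = b
      · subst hab; simp
      · rw [Function.update_of_ne hab]
        simp [hab]
  rw [← key (univ.filter fun a => ¬ p a) fun a ha => (mem_filter.1 ha).2]
  congr 1
  funext a
  by_cases ha : p a
  · simp [ha, hm a ha]
  · simp [ha]

lemma avg_res {M : κ → ℕ} (hM : ∀ a, 0 < M a) (Φ : ({a // p a} → ℕ) → ℝ) :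
    avg M (fun m => Φ (res p m)) = avg (res p M) Φ := by
  have h1 : ∑ m ∈ box M, Φ (res p m) =
      (∏ a : {a // ¬ p a}, M a : ℕ) * ∑ m ∈ box (res p M), Φ m := by
    let e : (κ → ℕ) ≃ ({a // p a} → ℕ) × ({a // ¬ p a} → ℕ) :=
      Equiv.piEquivPiSubtypeProd p fun _ => ℕ
    have h2 : ∑ m ∈ box M, Φ (res p m) =
        ∑ q ∈ box (res p M) ×ˢ box (fun a : {a // ¬ p a} => M a), Φ q.1 := by
      refine Finset.sum_equiv e (fun m => ?_) (fun m _ => rfl)
      rw [mem_product, mem_box, mem_box, mem_box]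
      constructor
      · intro h
        exact ⟨fun a => h a, fun a => h a⟩
      · rintro ⟨h, h'⟩ a
        by_cases ha : p a
        · exact h ⟨a, ha⟩
        · exact h' ⟨a, ha⟩
    rw [h2, Finset.sum_product, Finset.mul_sum]
    refine Finset.sum_congr rfl fun m _ => ?_
    dsimp only
    rw [Finset.sum_const, card_box, nsmul_eq_mul]
  have h3 : (∏ a, (M a : ℝ)) = (∏ a : {a // p a}, (M a : ℝ)) * ∏ a : {a // ¬ p a}, (M a : ℝ) :=
    (Fintype.prod_subtype_mul_prod_subtype p fun a => (M a : ℝ)).symm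
  unfold avg
  rw [h1, h3]
  have h4 : (∏ a : {a // p a}, (M a : ℝ)) ≠ 0 :=
    Finset.prod_ne_zero_iff.2 fun a _ => by exact_mod_cast (hM a).ne'
  have h5 : (∏ a : {a // ¬ p a}, (M a : ℝ)) ≠ 0 :=
    Finset.prod_ne_zero_iff.2 fun a _ => by exact_mod_cast (hM a).ne'
  simp only [res]
  push_cast
  field_simp

lemma tendsto_res : Tendsto (res p : (κ → ℕ) → {a // p a} → ℕ) atTop atTop := by
  rw [tendsto_atTop]
  intro b
  filter_upwards [eventually_ge_atTop (ext0 p b)] with M hM a
  have := hM a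
  unfold ext0 at this
  rw [dif_pos a.2] at this
  exact this

lemma tendsto_of_res {Φ : ({a // p a} → ℕ) → ℝ} {L : ℝ}
    (h : Tendsto (fun M => avg M Φ) atTop (𝓝 L)) :
    Tendsto (fun M : κ → ℕ => avg M fun m => Φ (res p m)) atTop (𝓝 L) := by
  refine (h.comp tendsto_res).congr' ?_
  filter_upwards [eventually_pos] with M hM
  exact (avg_res hM Φ).symm

variable {X : Type} {G : Type} [Group G] [LinearOrder G] {T : G →* Equiv.Perm X}
  {𝒜 π : MeasurableSpace X} [mX : MeasurableSpace X] {μ : Measure X}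
  {J : Type} [Fintype J] [DecidableEq J]

/-- all functions levelled -/
theorem ae_zero_levels [IsProbabilityMeasure μ] [MulRightMono G] (hP : Past T 𝒜 π μ)
    {φ : J → (κ → ℕ) → G}
    {dep : J → κ → Prop} (hφ : Seqs φ dep) (γ : J → G) (H : J → X → ℝ)
    (hs : ∀ j, Lv T 𝒜 μ (γ j) (H j)) (hJ : Nonempty J) (hJd : ∀ j, ∃ a, dep j a) :
    ∀ᵐ x ∂μ, Tendsto (fun M : κ → ℕ => avg M fun m => ∏ j, H j (T (φ j m) x)) atTop (𝓝 0) := by
  classical
  set q : κ → Prop := fun a => ∃ j, dep j a with hq
  set φ' : J → ({a // q a} → ℕ) → G := fun j m => φ j (ext0 q m) with hφ'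
  have hS : Seqs φ' fun j a => dep j a := by
    refine ⟨?_, ?_, ?_⟩
    · intro j a hja m
      simp only [hφ', ext0_update]
      exact hφ.inj j a hja (ext0 q m)
    · intro j a hja m t
      simp only [hφ', ext0_update]
      exact hφ.ind j a hja (ext0 q m) t
    · intro i l hil
      obtain ⟨a, ha⟩ := hφ.sep i l hil
      have hqa : q a := by
        by_contra hqa
        simp only [hq, not_exists] at hqa
        have h1 := ha (φ i 0)⁻¹ (φ l 0)⁻¹ 0 0 1 (by
          rw [hφ.ind i a (hqa i), hφ.ind l a (hqa l), inv_mul_cancel, inv_mul_cancel]) (by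
          rw [hφ.ind i a (hqa i), hφ.ind l a (hqa l), inv_mul_cancel, inv_mul_cancel])
        exact absurd h1 (by norm_num)
      refine ⟨⟨a, hqa⟩, fun γ γ' m t t' h1 h2 => ?_⟩
      simp only [hφ', ext0_update] at h1 h2
      exact ha γ γ' (ext0 q m) t t' h1 h2
  obtain ⟨j₀⟩ := hJ
  obtain ⟨a₀, ha₀⟩ := hJd j₀
  have : Nonempty {a // q a} := ⟨⟨a₀, j₀, ha₀⟩⟩
  have h1 := ae_zero (κ := {a // q a}) hP hS univ γ H (fun j => (hs j).measurable hP)
    (fun j _ => hs j) (fun j hj => absurd (mem_univ j) hj) (fun j => (hs j).bdd)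
    (fun a => by
      obtain ⟨j, hj⟩ := a.2
      exact ⟨j, mem_univ _, hj⟩)
  filter_upwards [h1] with x hx
  refine (tendsto_of_res (κ := κ) hx).congr fun M => ?_
  refine avg_congr fun m _ => Finset.prod_congr rfl fun j _ => ?_
  have h2 : φ j (ext0 q (res q m)) = φ j m := by
    refine eq_of_indep (p := q) (fun a ha m t => ?_) _ _ fun a ha => ext0_res_apply m ha
    exact hφ.ind j a (fun h => ha ⟨j, h⟩) m t
  simp only [hφ', h2]

end Pool.Agent.Lib.Pf720aeK
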