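import Pool.Agent.Lib.Pf720aeK.Zero
import Pool.Agent.Lib.Pf720aeK.Princ

/-!
# Ordered products of powers in a bi-ordered group
-/

set_option autoImplicit false
set_option linter.unusedSectionVars false

open MeasureTheory Filter Topology Finset

namespace Pool.Agent.Lib.Pf720aeK

open Pool.Agent.Lib.Pf720ae

variable {G : Type} [Group G]

/-- `g_0^{m_0} * g_1^{m_1} * ⋯` -/
def wd {k : ℕ} (g : Fin k → G) (m : Fin k → ℕ) : G := (List.ofFn fun l => g l ^ m l).prod

lemma wd_succ {k : ℕ} (g : Fin (k + 1) → G) (m : Fin (k + 1) → ℕ) :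
    wd g m = g 0 ^ m 0 * wd (fun l => g l.succ) fun l => m l.succ := by
  unfold wd
  rw [List.ofFn_succ, List.prod_cons]

lemma wd_zero' (g : Fin 0 → G) (m : Fin 0 → ℕ) : wd g m = 1 := by
  unfold wd
  simp

lemma wd_zero {k : ℕ} (g : Fin k → G) : wd g 0 = 1 := by
  induction k with
  | zero => exact wd_zero' _ _
  | succ k ih =>
    rw [wd_succ, Pi.zero_apply, pow_zero, one_mul]
    exact ih fun l => g l.succ

lemma update_succ_tail {k : ℕ} (m : Fin (k + 1) → ℕ) (a : Fin k) (t : ℕ) :
    (fun l : Fin k => Function.update m a.succ t l.succ) =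
      Function.update (fun l : Fin k => m l.succ) a t := by
  funext l
  by_cases h : l = a
  · subst h; simp
  · rw [Function.update_of_ne h, Function.update_of_ne]
    exact fun h' => h (Fin.succ_injective _ h')

/-- the shape of two words with a common tail -/
lemma wd_split {k : ℕ} (g g' : Fin k → G) (m : Fin k → ℕ) (a : Fin k)
    (h : ∀ b, a < b → g b = g' b) :
    ∃ P P' Q : G, ∀ t, wd g (Function.update m a t) = P * g a ^ t * Q ∧
      wd g' (Function.update m a t) = P' * g' a ^ t * Q := by
  induction k with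
  | zero => exact a.elim0
  | succ k ih =>
    induction a using Fin.cases with
    | zero =>
      refine ⟨1, 1, wd (fun l => g l.succ) fun l => m l.succ, fun t => ?_⟩
      have e : (fun l : Fin k => Function.update m 0 t l.succ) = fun l => m l.succ := by
        funext l
        rw [Function.update_of_ne (Fin.succ_ne_zero l)]
      have e2 : (fun l : Fin k => g' l.succ) = fun l => g l.succ := by
        funext l
        exact (h _ (Fin.succ_pos l)).symm
      rw [wd_succ, wd_succ, e, e2]
      simp
    | succ a =>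
      obtain ⟨P, P', Q, hPQ⟩ := ih (fun l => g l.succ) (fun l => g' l.succ)
        (fun l => m l.succ) a fun b hb => h _ (Fin.succ_lt_succ_iff.2 hb)
      refine ⟨g 0 ^ m 0 * P, g' 0 ^ m 0 * P', Q, fun t => ?_⟩
      rw [wd_succ, wd_succ, update_succ_tail, (hPQ t).1, (hPQ t).2]
      rw [Function.update_of_ne (Fin.succ_ne_zero a).symm]
      simp [mul_assoc]

lemma wd_split' {k : ℕ} (g : Fin k → G) (m : Fin k → ℕ) (a : Fin k) :
    ∃ P Q : G, ∀ t, wd g (Function.update m a t) = P * g a ^ t * Q := by
  obtain ⟨P, _, Q, h⟩ := wd_split g g m a fun _ _ => rfl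
  exact ⟨P, Q, fun t => (h t).1⟩

lemma wd_add {k : ℕ} (g : Fin k → G) (m : Fin k → ℕ) (a : Fin k) (t : ℕ)
    (hm : ∀ l, m l ≠ 0 → l < a) : wd g (m + Pi.single a t) = wd g m * g a ^ t := by
  induction k with
  | zero => exact a.elim0
  | succ k ih =>
    induction a using Fin.cases with
    | zero =>
      have h0 : m = 0 := by
        funext l
        by_contra hl
        exact absurd (hm l hl) (Fin.not_lt_zero l)
      subst h0
      rw [wd_zero, zero_add, wd_succ]
      have e : (fun l : Fin k => (Pi.single 0 t : Fin (k + 1) → ℕ) l.succ) = 0 := by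
        funext l
        simp
      rw [e, wd_zero]
      simp
    | succ a =>
      rw [wd_succ, wd_succ g m]
      have e : (fun l : Fin k => (m + (Pi.single a.succ t : Fin (k + 1) → ℕ)) l.succ) =
          (fun l : Fin k => m l.succ) + Pi.single a t := by
        funext l
        by_cases h : l = a
        · subst h; simp
        · simp [Pi.single_eq_of_ne h, Pi.single_eq_of_ne
            (fun h' => h (Fin.succ_injective _ h') : l.succ ≠ a.succ)]
      rw [e, ih (fun l => g l.succ) (fun l => m l.succ) a
        fun l hl => Fin.succ_lt_succ_iff.1 (hm l.succ hl)]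
      simp [mul_assoc, Pi.single_eq_of_ne (Fin.succ_ne_zero a).symm]

lemma wd_single {k : ℕ} (g : Fin k → G) (a : Fin k) (t : ℕ) :
    wd g (Pi.single a t) = g a ^ t := by
  have := wd_add g 0 a t (by simp)
  rwa [zero_add, wd_zero, one_mul] at this

lemma ordd_wd {X : Type} {k : ℕ} (T : G →* Equiv.Perm X) (g : Fin k → G) :
    Ordd fun (m : Fin k → ℕ) (x : X) => T (wd g m) x where
  zero x := by rw [wd_zero, map_one]; rfl
  iter a t x := by
    simp only [wd_single, pow_one, map_pow]
    rw [← Equiv.Perm.iterate_eq_pow]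
  add m a t x hm := by
    rw [wd_add g m a t hm, wd_single, map_mul]
    rfl

variable [LinearOrder G] [MulLeftMono G] [MulRightMono G]

lemma pow_inj_ord {g : G} (hg : g ≠ 1) : Function.Injective fun t : ℕ => g ^ t := by
  rcases lt_or_gt_of_ne hg with h | h
  · have h1 : (1 : G) < g⁻¹ := Left.one_lt_inv_iff.2 h
    intro t t' htt
    have := pow_right_strictMono' h1
    refine this.injective ?_
    simp only [inv_pow]
    exact congrArg _ htt
  · exact (pow_right_strictMono' h).injective

lemma root_ord {g h : G} {r : ℕ} (hr : r ≠ 0) (hgh : g ^ r = h ^ r) : g = h := by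
  rcases lt_trichotomy g h with h1 | h1 | h1
  · exact absurd hgh (pow_lt_pow_left' hr h1).ne
  · exact h1
  · exact absurd hgh (pow_lt_pow_left' hr h1).ne'

lemma root_ord2 {A B g h : G} {t t' : ℕ} (hgh : g ≠ h) (h1 : A * g ^ t = B * h ^ t)
    (h2 : A * g ^ t' = B * h ^ t') : t = t' := by
  by_contra hne
  wlog hlt : t < t' generalizing t t'
  · exact this h2 h1 (fun h => hne h.symm) (lt_of_le_of_ne (not_lt.1 hlt) fun h => hne h.symm)
  obtain ⟨r, rfl⟩ := Nat.exists_eq_add_of_lt hlt
  apply hgh
  refine root_ord (r := r + 1) (Nat.succ_ne_zero r) ?_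
  rw [add_assoc, pow_add, pow_add h, ← mul_assoc, ← mul_assoc, h1] at h2
  exact mul_left_cancel h2

lemma seqs_wd {k : ℕ} {J : Type} (g : J → Fin k → G) (hg : Function.Injective g) :
    Seqs (fun j (m : Fin k → ℕ) => wd (g j) m) fun j a => g j a ≠ 1 where
  inj j a hja m := by
    obtain ⟨P, Q, hPQ⟩ := wd_split' (g j) m a
    intro t t' h
    simp only [hPQ] at h
    exact pow_inj_ord hja (mul_left_cancel (mul_right_cancel h))
  ind j a hja m t := by
    obtain ⟨P, Q, hPQ⟩ := wd_split' (g j) m a
    have h1 := hPQ t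
    have h2 := hPQ (m a)
    rw [Function.update_eq_self] at h2
    rw [not_not] at hja
    rw [h1, h2, hja, one_pow, one_pow]
  sep i l hil := by
    have hne : g i ≠ g l := fun h => hil (hg h)
    -- the last place where the two tuples differ
    obtain ⟨a, ha, hb⟩ : ∃ a, g i a ≠ g l a ∧ ∀ b, a < b → g i b = g l b := by
      have hex : (univ.filter fun a => g i a ≠ g l a).Nonempty := by
        obtain ⟨a, ha⟩ := Function.ne_iff.1 hne
        exact ⟨a, mem_filter.2 ⟨mem_univ _, ha⟩⟩
      refine ⟨(univ.filter fun a => g i a ≠ g l a).max' hex,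
        (mem_filter.1 (Finset.max'_mem _ hex)).2, fun b hb => ?_⟩
      by_contra h
      exact absurd (Finset.le_max' _ b (mem_filter.2 ⟨mem_univ _, h⟩)) (not_le.2 hb)
    refine ⟨a, fun γ γ' m t t' h1 h2 => ?_⟩
    obtain ⟨P, P', Q, hPQ⟩ := wd_split (g i) (g l) m a hb
    simp only [(hPQ t).1, (hPQ t).2, (hPQ t').1, (hPQ t').2, ← mul_assoc] at h1 h2
    have h1' := mul_right_cancel h1
    have h2' := mul_right_cancel h2
    exact root_ord2 ha h1' h2'

end Pool.Agent.Lib.Pf720aeK
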