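import Pool.Agent.Lib.Pf720aeK.Core2

/-!
# Almost everywhere convergence to zero for products with levelled functions
-/

set_option autoImplicit false
set_option linter.unusedSectionVars false

open MeasureTheory Filter Topology Finset

namespace Pool.Agent.Lib.Pf720aeK

open Pool.Agent.Lib.Pf720ae Pool.Agent.Lib.Pf720ae.Alg

variable {X : Type} {G : Type} [Group G] [LinearOrder G] {T : G →* Equiv.Perm X}
  {𝒜 π : MeasurableSpace X} [mX : MeasurableSpace X] {μ : Measure X}
  {κ : Type} [Fintype κ] [DecidableEq κ] {J : Type} [Fintype J] [DecidableEq J]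

open Classical in
/-- the density of the bad times tends to zero -/
theorem bad_density [Nonempty κ] {φ : J → (κ → ℕ) → G} {dep : J → κ → Prop} (hφ : Seqs φ dep)
    (s : Finset J) (γ : J → G) :
    Tendsto (fun M : κ → ℕ => avg M fun m => if Good φ s γ m then (0 : ℝ) else 1) atTop (𝓝 0) := by
  choose! a ha using hφ.sep
  -- one pair
  have h1 : ∀ i l, i ≠ l → ∀ M : κ → ℕ, (∀ l, 0 < M l) →
      (avg M fun m => if γ i * φ i m = γ l * φ l m then (1 : ℝ) else 0) ≤ 1 / M (a i l) := by
    intro i l hil M hM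
    set b := a i l with hb
    have hMb : (0 : ℝ) < M b := by exact_mod_cast hM b
    have e : (avg M fun m => if γ i * φ i m = γ l * φ l m then (1 : ℝ) else 0) =
        avg M fun m => (M b : ℝ)⁻¹ * ∑ t ∈ range (M b),
          if γ i * φ i (Function.update m b t) = γ l * φ l (Function.update m b t)
            then (1 : ℝ) else 0 := by
      rw [avg_smul]
      unfold avg
      rw [sum_box_update M b (fun m => if γ i * φ i m = γ l * φ l m then (1 : ℝ) else 0),
        nsmul_eq_mul]
      field_simp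
    rw [e]
    refine avg_le_of_le (by positivity) fun m => ?_
    rw [one_div]
    refine mul_le_of_le_one_right (by positivity) ?_
    rw [Finset.sum_boole]
    have : ((range (M b)).filter fun t =>
        γ i * φ i (Function.update m b t) = γ l * φ l (Function.update m b t)).card ≤ 1 := by
      rw [Finset.card_le_one]
      intro t ht t' ht'
      exact ha i l hil (γ i) (γ l) m t t' (mem_filter.1 ht).2 (mem_filter.1 ht').2
    exact_mod_cast this
  have h2 : ∀ M : κ → ℕ, (∀ l, 0 < M l) →
      (avg M fun m => if Good φ s γ m then (0 : ℝ) else 1) ≤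
        ∑ p ∈ s.offDiag, 1 / (M (a p.1 p.2) : ℝ) := by
    intro M hM
    have e1 : ∀ m, (if Good φ s γ m then (0 : ℝ) else 1) ≤
        ∑ p ∈ s.offDiag, if γ p.1 * φ p.1 m = γ p.2 * φ p.2 m then (1 : ℝ) else 0 := by
      intro m
      split_ifs with hg
      · exact Finset.sum_nonneg fun p _ => by split_ifs <;> norm_num
      · unfold Good at hg
        push Not at hg
        obtain ⟨i, hi, l, hl, hil, heq⟩ := hg
        have hmem : (i, l) ∈ s.offDiag := mem_offDiag.2 ⟨hi, hl, hil⟩
        have := Finset.single_le_sum (f := fun p : J × J =>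
          if γ p.1 * φ p.1 m = γ p.2 * φ p.2 m then (1 : ℝ) else 0)
          (fun p _ => by split_ifs <;> norm_num) hmem
        simpa [heq] using this
    refine (avg_mono M e1).trans ?_
    have e2 : (avg M fun m => ∑ p ∈ s.offDiag, if γ p.1 * φ p.1 m = γ p.2 * φ p.2 m
        then (1 : ℝ) else 0) = ∑ p ∈ s.offDiag, avg M fun m =>
          if γ p.1 * φ p.1 m = γ p.2 * φ p.2 m then (1 : ℝ) else 0 := by
      unfold avg
      rw [Finset.sum_comm, Finset.mul_sum]
    rw [e2]
    exact Finset.sum_le_sum fun p hp => h1 p.1 p.2 (mem_offDiag.1 hp).2.2 M hM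
  have h3 : Tendsto (fun M : κ → ℕ => ∑ p ∈ s.offDiag, 1 / (M (a p.1 p.2) : ℝ)) atTop (𝓝 0) := by
    have : ∀ p ∈ s.offDiag, Tendsto (fun M : κ → ℕ => 1 / (M (a p.1 p.2) : ℝ)) atTop (𝓝 0) :=
      fun p _ => (tendsto_const_div_atTop_nhds_zero_nat (1 : ℝ)).comp (tendsto_coord _)
    have h4 := tendsto_finsetSum s.offDiag this
    rwa [Finset.sum_const_zero] at h4
  refine squeeze_zero' (Eventually.of_forall fun M => avg_nonneg M fun m => by
    split_ifs <;> norm_num) ?_ h3
  filter_upwards [eventually_ge_atTop (fun _ : κ => 1)] with M hM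
  exact h2 M fun l => hM l

theorem ae_zero [IsProbabilityMeasure μ] [MulRightMono G] [Nonempty κ] (hP : Past T 𝒜 π μ)
    {φ : J → (κ → ℕ) → G}
    {dep : J → κ → Prop} (hφ : Seqs φ dep) (s : Finset J) (γ : J → G) (H : J → X → ℝ)
    (Hm : ∀ j, Measurable (H j))
    (hs : ∀ j ∈ s, Lv T 𝒜 μ (γ j) (H j)) (hn : ∀ j ∉ s, Measurable[π] (H j))
    (H1 : ∀ j x, |H j x| ≤ 1) (hcov : ∀ a, ∃ j ∈ s, dep j a) :
    ∀ᵐ x ∂μ, Tendsto (fun M : κ → ℕ => avg M fun m => ∏ j, H j (T (φ j m) x)) atTop (𝓝 0) := by
  classical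
  set θ : ℝ := ((s.card : ℝ) + 1)⁻¹ with hθ
  have hθ0 : 0 < θ := by positivity
  have hθ1 : θ ≤ 1 := by
    rw [hθ]
    exact inv_le_one_of_one_le₀ (by linarith [Nat.cast_nonneg (α := ℝ) s.card])
  have h1 : ∀ᵐ x ∂μ, Tendsto (fun M : κ → ℕ => avg M fun m => θ * uu T φ s γ H m x) atTop
      (𝓝 0) := by
    refine ae_tendsto (u := fun m x => θ * uu T φ s γ H m x)
      (fun m => (measurable_uu hP φ s γ Hm m).const_mul θ) (fun m x => ?_) 0 ?_
    · rw [abs_mul, abs_of_pos hθ0]
      exact mul_le_one₀ hθ1 (abs_nonneg _) (abs_uu_le T φ s γ H1 m x)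
    · intro M hM a
      have hMa : (0 : ℝ) < M a := by exact_mod_cast hM a
      simp_rw [avg_smul, mul_pow]
      rw [integral_const_mul]
      have h2 := box_bound hP hφ s γ H Hm hs hn H1 a (hcov a) M hM
      have h3 : bt 0 (M a) = 4 / M a := by
        unfold bt
        rw [pow_zero, Real.rpow_neg_one, div_eq_mul_inv]
      rw [h3]
      calc θ ^ 2 * ∫ x, (avg M fun m => uu T φ s γ H m x) ^ 2 ∂μ
          ≤ θ ^ 2 * ((s.card : ℝ) ^ 2 / M a) := by gcongr
        _ = (θ * s.card) ^ 2 / M a := by ring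
        _ ≤ 4 / M a := by
            have h4 : θ * s.card ≤ 1 := by
              rw [hθ, inv_mul_le_iff₀ (by positivity)]
              linarith
            have h5 : 0 ≤ θ * s.card := by positivity
            gcongr
            nlinarith
  have h2 := bad_density hφ s γ
  filter_upwards [h1] with x hx
  have h3 : Tendsto (fun M : κ → ℕ => avg M fun m => uu T φ s γ H m x) atTop (𝓝 0) := by
    have := hx.const_mul θ⁻¹
    rw [mul_zero] at this
    refine this.congr fun M => ?_
    rw [avg_smul, inv_mul_cancel_left₀ hθ0.ne']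
  have h4 : Tendsto (fun M : κ → ℕ => (avg M fun m => ∏ j, H j (T (φ j m) x)) -
      avg M fun m => uu T φ s γ H m x) atTop (𝓝 0) := by
    refine squeeze_zero_norm (fun M => ?_) h2
    rw [Real.norm_eq_abs, ← avg_sub]
    refine (abs_avg_le M _).trans (avg_mono M fun m => ?_)
    unfold uu
    split_ifs with hg
    · simp
    · rw [sub_zero, Finset.abs_prod]
      exact Finset.prod_le_one (fun i _ => abs_nonneg _) fun i _ => H1 _ _
  have h5 := h4.add h3
  simpa using h5

end Pool.Agent.Lib.Pf720aeK
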